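import Mathlib

/-!
# Nondeterministic real-time trellis automata

Definitions for MP_4cfe6b_lc.  The infinite trellis has levels `m = 0, 1, 2, …`; level `m` holds
the nodes `v_{m,0}, …, v_{m,m}`, and `v_{m,k}` receives the outputs of `v_{m+1,k}` (left) and
`v_{m+1,k+1}` (right).  A labelling is a function `lab : ℕ → ℕ → Δ`, where `lab m k` is the label of
`v_{m,k}` (only the values with `k ≤ m` matter).
-/

namespace Pool.Agent.Lib.MP_4cfe6b_lc

/-- A nondeterministic real-time trellis automaton with input alphabet `S`: a finite set `Δ` of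
processor names, a labelling of the infinite trellis, a finite alphabet `Γ` containing `S` (through
the injection `inc`), a set `acc ⊆ Γ`, and maps `g δ` from `(Γ ∪ {λ})²` to the nonempty subsets
of `Γ` (the symbol `λ` is `none`). -/
structure NTA (S : Type) where
  /-- the processor names -/
  Δ : Type
  /-- the working alphabet -/
  Γ : Type
  finΔ : Finite Δ
  finΓ : Finite Γ
  /-- the label of node `v_{m,k}` -/
  lab : ℕ → ℕ → Δ
  /-- the inclusion of the input alphabet in the working alphabet -/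
  inc : S ↪ Γ
  /-- the accepting symbols -/
  acc : Set Γ
  /-- the nondeterministic operation of a processor -/
  g : Δ → Option Γ → Option Γ → Set Γ
  g_nonempty : ∀ δ x y, (g δ x y).Nonempty

variable {S : Type}

/-- `ρ m k` is the output of node `v_{m,k}` in a run on the word `w = a_1 ⋯ a_n`: node
`v_{n-1,k-1}` receives `(λ, a_k)` (here `k` is counted from `0`), and a node `v_{m,k}` of a higher
level receives the outputs of `v_{m+1,k}` and `v_{m+1,k+1}`. -/
def NTA.IsRun (A : NTA S) (w : List S) (ρ : ℕ → ℕ → A.Γ) : Prop :=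
  (∀ (k : ℕ) (hk : k < w.length),
    ρ (w.length - 1) k ∈ A.g (A.lab (w.length - 1) k) none (some (A.inc w[k]))) ∧
  ∀ m k : ℕ, m + 1 < w.length → k ≤ m →
    ρ m k ∈ A.g (A.lab m k) (some (ρ (m + 1) k)) (some (ρ (m + 1) (k + 1)))

/-- The language accepted by the automaton: the nonempty words on which some run gives an
accepting symbol at the apex `v_{0,0}`. -/
def NTA.language (A : NTA S) : Set (List S) :=
  {w | w ≠ [] ∧ ∃ ρ : ℕ → ℕ → A.Γ, A.IsRun w ρ ∧ ρ 0 0 ∈ A.acc}

/-- `π(δ₁ ⋯ δ_s) = l(δ₁) h(δ₁, δ₂) ⋯ h(δ_{s-1}, δ_s) r(δ_s)`, and in particular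
`π(δ) = l(δ) r(δ)`. -/
def nextRow {Δ : Type} (l r : Δ → Δ) (h : Δ → Δ → Δ) (w : List Δ) : List Δ :=
  (w.head?.map l).toList ++ List.zipWith h w w.tail ++ (w.getLast?.map r).toList

/-- A labelling is top-down regular if row `m` of labels is `π^m(a)`, for some finite algebra
`(Δ, l, r, h)` and some symbol `a`. -/
def IsTopDownRegular {Δ : Type} (lab : ℕ → ℕ → Δ) : Prop :=
  ∃ (l r : Δ → Δ) (h : Δ → Δ → Δ) (a : Δ), ∀ m k : ℕ, k ≤ m →
    ((nextRow l r h)^[m] [a])[k]? = some (lab m k)

/-- `block p q M N δ i j` is the entry `(i, j)` of the `p^N × q^N` array `M^N_δ`: `M^0_δ` is the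
`1 × 1` array `(δ)`, and `M^{N+1}_δ` is the block array whose block `(s, t)` is
`M^N_{M δ s t}`, where `0 ≤ s < p` and `0 ≤ t < q`.  In particular `M^1_δ = (M δ s t)_{s,t}`. -/
def block {Δ : Type} (p q : ℕ) (M : Δ → ℕ → ℕ → Δ) : ℕ → Δ → ℕ → ℕ → Δ
  | 0, δ, _, _ => δ
  | N + 1, δ, i, j => block p q M N (M δ (i / p ^ N) (j / q ^ N)) (i % p ^ N) (j % q ^ N)

/-- A labelling is modular: in the coordinates `(i, j)` of the node `v_{i+j,i}`, the label is the
entry `(i, j)` of `M^N_{δ₀}` for all large `N`. -/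
def IsModular {Δ : Type} (lab : ℕ → ℕ → Δ) : Prop :=
  ∃ (p q : ℕ) (M : Δ → ℕ → ℕ → Δ) (δ₀ : Δ), 2 ≤ p ∧ 2 ≤ q ∧ M δ₀ 0 0 = δ₀ ∧
    ∀ i j : ℕ, ∃ N₀ : ℕ, ∀ N ≥ N₀, lab (i + j) i = block p q M N δ₀ i j

/-- The class `𝒩_mod` of languages over `S` accepted by nondeterministic automata with modular
labelling. -/
def NMod (S : Type) : Set (Set (List S)) :=
  {L | ∃ A : NTA S, IsModular A.lab ∧ A.language = L}

/-- The class `𝒩_reg` of languages over `S` accepted by nondeterministic automata with top-down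
regular labelling. -/
def NReg (S : Type) : Set (Set (List S)) :=
  {L | ∃ A : NTA S, IsTopDownRegular A.lab ∧ A.language = L}

end Pool.Agent.Lib.MP_4cfe6b_lc
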