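import Pool.Agent.Lib.MP_4cfe6b_lc.Run

/-!
# The hierarchical grid

The vertical line `i ≥ 1` has the level `val p i` and the horizontal line `j ≥ 1` has the level
`val q j`.  At the crossing of the two lines the certificate announces how the levels compare.
Local counters on the lines force these announcements to be right, except near the base.
-/

namespace Pool.Agent.Lib.MP_4cfe6b_lc

/-- comparison of the level of the vertical line with the level of the horizontal line -/
inductive Ev
  | G2 | G1 | E | L1 | L2
  deriving DecidableEq, Fintype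

/-- exchange of the roles of the two lines -/
def Ev.flip : Ev → Ev
  | G2 => L2
  | G1 => L1
  | E => E
  | L1 => G1
  | L2 => G2

@[simp] theorem Ev.flip_flip (e : Ev) : e.flip.flip = e := by cases e <;> rfl

/-- the comparison of two numbers -/
def cmpEv (a b : ℕ) : Ev :=
  if b + 2 ≤ a then Ev.G2 else if b + 1 = a then Ev.G1 else if a = b then Ev.E else
    if a + 1 = b then Ev.L1 else Ev.L2

theorem cmpEv_flip (a b : ℕ) : (cmpEv a b).flip = cmpEv b a := by
  unfold cmpEv
  split_ifs <;> first | rfl | (exfalso; omega)

/-- the counters of a line -/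
@[ext]
structure Ctr where
  /-- digit one below the level of the line -/
  u : ℕ
  /-- digit at the level of the line -/
  t : ℕ
  /-- digit one above the level of the line -/
  t' : ℕ

/-- update of the counters; `b` says that the level of the line is positive -/
def CStep (q : ℕ) (b : Prop) (e : Ev) (x y : Ctr) : Prop :=
  match e with
  | Ev.G2 => b ∧ y = x
  | Ev.G1 => b ∧ x.u + 1 < q ∧ y = ⟨x.u + 1, x.t, x.t'⟩
  | Ev.E => (b → x.u + 1 = q) ∧ x.t + 1 < q ∧ y = ⟨0, x.t + 1, x.t'⟩
  | Ev.L1 => (b → x.u + 1 = q) ∧ x.t + 1 = q ∧ x.t' + 1 < q ∧ y = ⟨0, 0, x.t' + 1⟩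
  | Ev.L2 => (b → x.u + 1 = q) ∧ x.t + 1 = q ∧ x.t' + 1 = q ∧ y = ⟨0, 0, 0⟩

theorem CStep.det {q : ℕ} {b : Prop} {e : Ev} {x y y' : Ctr} (h : CStep q b e x y)
    (h' : CStep q b e x y') : y = y' := by
  cases e with
  | G2 => exact h.2.trans h'.2.symm
  | G1 => exact h.2.2.trans h'.2.2.symm
  | E => exact h.2.2.trans h'.2.2.symm
  | L1 => exact h.2.2.2.trans h'.2.2.2.symm
  | L2 => exact h.2.2.2.trans h'.2.2.2.symm

theorem CStep.congr {q : ℕ} {b b' : Prop} (hb : b ↔ b') {e : Ev} {x y : Ctr}
    (h : CStep q b e x y) : CStep q b' e x y := by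
  rw [← propext hb]
  exact h

/-- The constraints on the announced comparisons and the counters. -/
structure EvGrid (p q N : ℕ) (e : ℕ → ℕ → Ev) (V H : ℕ → ℕ → Ctr) : Prop where
  v0 : ∀ i, 1 ≤ i → i + 1 < N → V i 0 = ⟨0, 0, 0⟩
  vs : ∀ i j, 1 ≤ i → i + j + 1 < N → CStep q (p ∣ i) (e i (j + 1)) (V i j) (V i (j + 1))
  h0 : ∀ j, 1 ≤ j → j + 1 < N → H 0 j = ⟨0, 0, 0⟩
  hs : ∀ i j, 1 ≤ j → i + j + 1 < N → CStep p (q ∣ j) (e (i + 1) j).flip (H i j) (H (i + 1) j)

theorem EvGrid.transpose {p q N : ℕ} {e : ℕ → ℕ → Ev} {V H : ℕ → ℕ → Ctr}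
    (h : EvGrid p q N e V H) :
    EvGrid q p N (fun i j => (e j i).flip) (fun i j => H j i) (fun i j => V j i) where
  v0 := h.h0
  vs i j hi hij := h.hs j i hi (by omega)
  h0 := h.v0
  hs i j hj hij := by
    rw [Ev.flip_flip]
    exact h.vs j i hj (by omega)

/-- the exponent of `p` in `i` -/
noncomputable def val (p i : ℕ) : ℕ := multiplicity p i

theorem pow_dvd_iff {p i k : ℕ} (hp : 2 ≤ p) (hi : 1 ≤ i) : p ^ k ∣ i ↔ k ≤ val p i :=
  FiniteMultiplicity.pow_dvd_iff_le_multiplicity (Nat.finiteMultiplicity_iff.2 ⟨by omega, hi⟩)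

theorem val_eq {p i k : ℕ} (hp : 2 ≤ p) (hi : 1 ≤ i) (h1 : p ^ k ∣ i) (h2 : ¬ p ^ (k + 1) ∣ i) :
    val p i = k := by
  rw [pow_dvd_iff hp hi] at h1 h2
  omega

theorem dvd_iff_val {p i : ℕ} (hp : 2 ≤ p) (hi : 1 ≤ i) : p ∣ i ↔ 1 ≤ val p i := by
  rw [← pow_dvd_iff hp hi, pow_one]

/-- the `k`-th digit of `j` in base `q` -/
def dig (q k j : ℕ) : ℕ := j / q ^ k % q

theorem dig_lt {q : ℕ} (hq : 2 ≤ q) (k j : ℕ) : dig q k j < q := Nat.mod_lt _ (by omega)

theorem dig_zero (q k : ℕ) : dig q k 0 = 0 := by
  unfold dig
  rw [Nat.zero_div, Nat.zero_mod]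

theorem dig_succ_of_not {q k j : ℕ} (h : ¬ q ^ k ∣ j + 1) : dig q k (j + 1) = dig q k j := by
  unfold dig
  rw [Nat.succ_div_of_not_dvd h]

theorem dig_succ_of_dvd {q k j : ℕ} (hq : 2 ≤ q) (h : q ^ (k + 1) ∣ j + 1) :
    dig q k (j + 1) = 0 ∧ dig q k j + 1 = q := by
  have h1 : q ^ k ∣ j + 1 := dvd_trans (pow_dvd_pow q (Nat.le_succ k)) h
  obtain ⟨c, hc⟩ := h
  have hpos : 0 < q ^ k := Nat.pow_pos (by omega)
  have h2 : (j + 1) / q ^ k = q * c := by
    rw [hc, pow_succ, mul_assoc, Nat.mul_div_cancel_left _ hpos]
  have h3 : j / q ^ k + 1 = q * c := by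
    rw [← h2, Nat.succ_div_of_dvd h1]
  unfold dig
  rw [h2, Nat.mul_mod_right]
  refine ⟨rfl, ?_⟩
  have hc0 : 1 ≤ c := by
    rcases Nat.eq_zero_or_pos c with rfl | h
    · omega
    · exact h
  have h4 : j / q ^ k = q * (c - 1) + (q - 1) := by
    have : q * c = q * (c - 1) + q := by
      rw [← Nat.mul_succ]
      congr 1
      omega
    omega
  rw [h4, Nat.mul_add_mod, Nat.mod_eq_of_lt (by omega)]
  omega

theorem dig_succ_of_dvd_of_not {q k j : ℕ} (hq : 2 ≤ q) (h : q ^ k ∣ j + 1)
    (h' : ¬ q ^ (k + 1) ∣ j + 1) : dig q k (j + 1) = dig q k j + 1 := by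
  unfold dig
  rw [Nat.succ_div_of_dvd h]
  obtain ⟨c, hc⟩ := h
  have hpos : 0 < q ^ k := Nat.pow_pos (by omega)
  have h2 : (j + 1) / q ^ k = c := by
    rw [hc, Nat.mul_div_cancel_left _ hpos]
  have h3 : j / q ^ k + 1 = c := by
    rw [← h2, Nat.succ_div_of_dvd ⟨c, hc⟩]
  have h4 : (j / q ^ k + 1) % q ≠ 0 := by
    intro h0
    obtain ⟨d, hd⟩ := Nat.dvd_of_mod_eq_zero h0
    apply h'
    refine ⟨d, ?_⟩
    rw [hc, ← h3, hd, pow_succ, mul_assoc]
  have h5 := Nat.mod_lt (j / q ^ k) (by omega : 0 < q)
  rcases Nat.lt_or_ge (j / q ^ k % q + 1) q with h6 | h6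
  · rw [Nat.add_mod, Nat.mod_eq_of_lt (by omega : 1 < q), Nat.mod_eq_of_lt h6]
  · exfalso
    apply h4
    rw [Nat.add_mod, Nat.mod_eq_of_lt (by omega : 1 < q)]
    have : j / q ^ k % q + 1 = q := by omega
    rw [this, Nat.mod_self]

/-- the right comparison at `(i, j)` -/
noncomputable def tev (p q i j : ℕ) : Ev := cmpEv (val p i) (val q j)

theorem tev_flip (p q i j : ℕ) : (tev p q i j).flip = tev q p j i := cmpEv_flip _ _

/-- the right counters of the vertical line `i` in row `j` -/
noncomputable def tctr (p q i j : ℕ) : Ctr :=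
  ⟨if val p i = 0 then 0 else dig q (val p i - 1) j, dig q (val p i) j, dig q (val p i + 1) j⟩

theorem tctr_zero (p q i : ℕ) : tctr p q i 0 = ⟨0, 0, 0⟩ := by
  unfold tctr
  simp only [dig_zero, ite_self]

theorem true_step {p q i : ℕ} (hp : 2 ≤ p) (hq : 2 ≤ q) (hi : 1 ≤ i) (j : ℕ) :
    CStep q (p ∣ i) (tev p q i (j + 1)) (tctr p q i j) (tctr p q i (j + 1)) := by
  have hd := dvd_iff_val hp hi
  have hv : ∀ k, q ^ k ∣ j + 1 ↔ k ≤ val q (j + 1) := fun k => pow_dvd_iff hq (by omega)
  unfold tev tctr
  generalize val p i = m at *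
  generalize val q (j + 1) = b at *
  have hsame : ∀ k, b < k → dig q k (j + 1) = dig q k j := fun k hk =>
    dig_succ_of_not (by rw [hv]; omega)
  have hinc : ∀ k, b = k → dig q k (j + 1) = dig q k j + 1 := fun k hk =>
    dig_succ_of_dvd_of_not hq (by rw [hv]; omega) (by rw [hv]; omega)
  have hzero : ∀ k, k < b → dig q k (j + 1) = 0 ∧ dig q k j + 1 = q := fun k hk =>
    dig_succ_of_dvd hq (by rw [hv]; omega)
  have hlt : ∀ k, dig q k (j + 1) < q := fun k => dig_lt hq _ _
  unfold cmpEv
  split_ifs with h1 h2 h3 h4 h5 h6
  all_goals first | (exfalso; omega) | skip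
  · exact ⟨hd.2 (by omega), by rw [hsame (m - 1) (by omega), hsame m (by omega),
      hsame (m + 1) (by omega)]⟩
  · have := hinc (m - 1) (by omega)
    refine ⟨hd.2 (by omega), ?_, ?_⟩
    · show dig q (m - 1) j + 1 < q
      rw [← this]
      exact hlt _
    · rw [this, hsame m (by omega), hsame (m + 1) (by omega)]
  · have := hinc m (by omega)
    refine ⟨fun h => ?_, ?_, ?_⟩
    · have := hd.1 h
      omega
    · show dig q m j + 1 < q
      rw [← this]
      exact hlt _
    · rw [this, hsame (m + 1) (by omega)]
  · have := hinc m (by omega)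
    refine ⟨fun h => ?_, ?_, ?_⟩
    · exact (hzero (m - 1) (by omega)).2
    · show dig q m j + 1 < q
      rw [← this]
      exact hlt _
    · rw [this, hsame (m + 1) (by omega), (hzero (m - 1) (by omega)).1]
  · have := hinc (m + 1) (by omega)
    refine ⟨fun h => ?_, (hzero m (by omega)).2, ?_, ?_⟩
    · have := hd.1 h
      omega
    · show dig q (m + 1) j + 1 < q
      rw [← this]
      exact hlt _
    · rw [this, (hzero m (by omega)).1]
  · have := hinc (m + 1) (by omega)
    refine ⟨fun h => ?_, (hzero m (by omega)).2, ?_, ?_⟩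
    · exact (hzero (m - 1) (by omega)).2
    · show dig q (m + 1) j + 1 < q
      rw [← this]
      exact hlt _
    · rw [this, (hzero m (by omega)).1, (hzero (m - 1) (by omega)).1]
  · refine ⟨fun h => ?_, (hzero m (by omega)).2, (hzero (m + 1) (by omega)).2, ?_⟩
    · have := hd.1 h
      omega
    · rw [(hzero m (by omega)).1, (hzero (m + 1) (by omega)).1]
  · refine ⟨fun h => ?_, (hzero m (by omega)).2, (hzero (m + 1) (by omega)).2, ?_⟩
    · exact (hzero (m - 1) (by omega)).2
    · rw [(hzero m (by omega)).1, (hzero (m + 1) (by omega)).1, (hzero (m - 1) (by omega)).1]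

/-- the loss of height needed for the lines of level less than `m` -/
def slack (p q : ℕ) : ℕ → ℕ
  | 0 => 0
  | m + 1 => slack p q m + (p ^ m + q ^ m)

theorem slack_symm (p q m : ℕ) : slack p q m = slack q p m := by
  induction m with
  | zero => rfl
  | succ m ih => simp only [slack, ih]; omega

theorem slack_mono (p q : ℕ) {m m' : ℕ} (h : m ≤ m') : slack p q m ≤ slack p q m' := by
  induction m' with
  | zero => obtain rfl : m = 0 := by omega
            exact le_rfl
  | succ m' ih =>
    rcases Nat.lt_or_ge m (m' + 1) with h' | h'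
    · have := ih (by omega)
      simp only [slack]
      omega
    · obtain rfl : m = m' + 1 := by omega
      exact le_rfl

theorem slack_le {p q : ℕ} (hp : 2 ≤ p) (hq : 2 ≤ q) (m : ℕ) :
    slack p q m + 2 ≤ p ^ m + q ^ m := by
  induction m with
  | zero => simp [slack]
  | succ m ih =>
    simp only [slack]
    have h1 : 2 * p ^ m ≤ p ^ (m + 1) := by
      rw [pow_succ, mul_comm]
      exact Nat.mul_le_mul_left _ hp
    have h2 : 2 * q ^ m ≤ q ^ (m + 1) := by
      rw [pow_succ, mul_comm]
      exact Nat.mul_le_mul_left _ hq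
    omega

section

variable {p q N : ℕ} {e : ℕ → ℕ → Ev} {V H : ℕ → ℕ → Ctr}

/-- The announcements on a vertical line of level `m` are right if those of all smaller levels
are. -/
theorem vline (hp : 2 ≤ p) (hq : 2 ≤ q) (hg : EvGrid p q N e V H) (m : ℕ)
    (IH : ∀ i j, 1 ≤ i → 1 ≤ j → min (val p i) (val q j) < m →
      i + j + 1 + slack p q (min (val p i) (val q j)) < N → e i j = tev p q i j)
    (i : ℕ) (hi : 1 ≤ i) (hm : val p i = m) :
    ∀ j, i + j + 1 + slack p q m < N → V i j = tctr p q i j ∧ (1 ≤ j → e i j = tev p q i j) := by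
  intro j
  induction j with
  | zero =>
    intro h
    refine ⟨?_, fun h0 => absurd h0 (by omega)⟩
    rw [tctr_zero]
    exact hg.v0 i hi (by omega)
  | succ j ih =>
    intro h
    obtain ⟨ih1, -⟩ := ih (by omega)
    have hstep := hg.vs i j hi (by omega)
    have htrue := true_step (q := q) hp hq hi j
    -- it suffices to show that the announcement is right
    suffices he : e i (j + 1) = tev p q i (j + 1) by
      refine ⟨?_, fun _ => he⟩
      rw [he, ih1] at hstep
      exact hstep.det htrue
    have hv : ∀ k, q ^ k ∣ j + 1 ↔ k ≤ val q (j + 1) := fun k => pow_dvd_iff hq (by omega)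
    rcases Nat.lt_or_ge (val q (j + 1)) m with hb | hb
    · -- rows of smaller level
      have hmin : min (val p i) (val q (j + 1)) = val q (j + 1) := by omega
      refine IH i (j + 1) hi (by omega) (by omega) ?_
      rw [hmin]
      have := slack_mono p q (le_of_lt hb)
      omega
    · -- rows of level at least `m`
      have hd := dvd_iff_val hp hi
      rw [hm] at hd
      -- the announcements `G1` and `G2` are impossible
      have hu : 1 ≤ m → (V i j).u + 1 = q := by
        intro hm1
        rw [ih1]
        show (if val p i = 0 then 0 else dig q (val p i - 1) j) + 1 = q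
        rw [hm, if_neg (by omega)]
        refine (dig_succ_of_dvd hq ?_).2
        rw [hv]
        omega
      have hG1 : e i (j + 1) ≠ Ev.G1 := by
        intro he
        rw [he] at hstep
        have h1 := hstep.2.1
        have h2 := hu (hd.1 hstep.1)
        omega
      have hG2 : e i (j + 1) ≠ Ev.G2 := by
        intro he
        rw [he] at hstep
        have hm1 : 1 ≤ m := hd.1 hstep.1
        have h2 := hu hm1
        obtain ⟨m', rfl⟩ : ∃ m', m = m' + 1 := ⟨m - 1, by omega⟩
        have hslack : slack p q (m' + 1) = slack p q m' + (p ^ m' + q ^ m') := rfl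
        have hqm : q ^ (m' + 1) ∣ j + 1 := by
          rw [hv]
          exact hb
        have hqm' : q ^ m' ∣ j + 1 := dvd_trans (pow_dvd_pow q (Nat.le_succ m')) hqm
        have hpos : 0 < q ^ m' := Nat.pow_pos (by omega)
        have hconst : ∀ r, r < q ^ m' → (V i (j + 1 + r)).u + 1 = q := by
          intro r
          induction r with
          | zero =>
            intro _
            have : V i (j + 1) = V i j := hstep.2
            show (V i (j + 1)).u + 1 = q
            rw [this]
            exact h2
          | succ r ihr =>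
            intro hr
            have ihr' := ihr (by omega)
            have hnd : ¬ q ^ m' ∣ j + 1 + (r + 1) := by
              rw [Nat.dvd_add_right hqm']
              intro hdvd
              have := Nat.le_of_dvd (by omega) hdvd
              omega
            have hval : val q (j + 1 + (r + 1)) < m' := by
              rw [pow_dvd_iff hq (by omega)] at hnd
              omega
            have hmin : min (val p i) (val q (j + 1 + (r + 1))) = val q (j + 1 + (r + 1)) := by
              omega
            have he' : e i (j + 1 + (r + 1)) = Ev.G2 := by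
              rw [IH i (j + 1 + (r + 1)) hi (by omega) (by omega) (by
                rw [hmin]
                have := slack_mono p q (le_of_lt hval)
                omega)]
              unfold tev cmpEv
              rw [if_pos (by omega)]
            have hs' := hg.vs i (j + 1 + r) hi (by omega)
            have e1 : j + 1 + r + 1 = j + 1 + (r + 1) := by omega
            rw [e1, he'] at hs'
            rw [hs'.2]
            exact ihr'
        have h3 := hconst (q ^ m' - 1) (by omega)
        have e1 : j + 1 + (q ^ m' - 1) + 1 = j + 1 + q ^ m' := by omega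
        have hs' := hg.vs i (j + 1 + (q ^ m' - 1)) hi (by omega)
        have hval : val q (j + 1 + q ^ m') = m' := by
          apply val_eq hq (by omega)
          · exact dvd_add hqm' dvd_rfl
          · rw [Nat.dvd_add_right hqm]
            intro hdvd
            have h4 := Nat.le_of_dvd hpos hdvd
            rw [pow_succ] at h4
            have : q ^ m' * 2 ≤ q ^ m' * q := Nat.mul_le_mul_left _ hq
            omega
        have he' : e i (j + 1 + q ^ m') = Ev.G1 := by
          rw [IH i (j + 1 + q ^ m') hi (by omega) (by omega) (by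
            have hmin : min (val p i) (val q (j + 1 + q ^ m')) = m' := by omega
            rw [hmin]
            omega)]
          unfold tev cmpEv
          rw [if_neg (by omega), if_pos (by omega)]
        rw [e1, he'] at hs'
        have h4 := hs'.2.1
        omega
      -- the counters decide
      have ht : (V i j).t = dig q m j := by
        rw [ih1]
        show dig q (val p i) j = _
        rw [hm]
      have ht' : (V i j).t' = dig q (m + 1) j := by
        rw [ih1]
        show dig q (val p i + 1) j = _
        rw [hm]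
      unfold tev
      rw [hm]
      cases he : e i (j + 1) with
      | G2 => exact absurd he hG2
      | G1 => exact absurd he hG1
      | E =>
        rw [he] at hstep
        have h1 := hstep.2.1
        rw [ht] at h1
        have h2 : val q (j + 1) = m := by
          by_contra hcon
          have h3 : q ^ (m + 1) ∣ j + 1 := by
            rw [hv]
            omega
          have := (dig_succ_of_dvd hq h3).2
          omega
        unfold cmpEv
        rw [if_neg (by omega), if_neg (by omega), if_pos (by omega)]
      | L1 =>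
        rw [he] at hstep
        have h1 := hstep.2.1
        have h1' := hstep.2.2.1
        rw [ht] at h1
        rw [ht'] at h1'
        have h2 : val q (j + 1) = m + 1 := by
          rcases Nat.lt_trichotomy (val q (j + 1)) (m + 1) with h3 | h3 | h3
          · exfalso
            have h4 := dig_succ_of_dvd_of_not hq ((hv m).2 (by omega))
              (mt (hv (m + 1)).1 (by omega))
            have h5 := dig_lt hq m (j + 1)
            omega
          · exact h3
          · exfalso
            have h4 : q ^ (m + 1 + 1) ∣ j + 1 := by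
              rw [hv]
              omega
            have := (dig_succ_of_dvd hq h4).2
            omega
        unfold cmpEv
        rw [if_neg (by omega), if_neg (by omega), if_neg (by omega), if_pos (by omega)]
      | L2 =>
        rw [he] at hstep
        have h1 := hstep.2.1
        have h1' := hstep.2.2.1
        rw [ht] at h1
        rw [ht'] at h1'
        have h2 : m + 2 ≤ val q (j + 1) := by
          by_contra hcon
          rcases Nat.lt_or_ge (val q (j + 1)) (m + 1) with h3 | h3
          · have h4 := dig_succ_of_dvd_of_not hq ((hv m).2 (by omega))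
              (mt (hv (m + 1)).1 (by omega))
            have h5 := dig_lt hq m (j + 1)
            omega
          · have h4 := dig_succ_of_dvd_of_not hq ((hv (m + 1)).2 (by omega))
              (mt (hv (m + 1 + 1)).1 (by omega))
            have h5 := dig_lt hq (m + 1) (j + 1)
            omega
        unfold cmpEv
        rw [if_neg (by omega), if_neg (by omega), if_neg (by omega), if_neg (by omega)]

theorem events_aux (hp : 2 ≤ p) (hq : 2 ≤ q) (hg : EvGrid p q N e V H) (m : ℕ) :
    ∀ i j, 1 ≤ i → 1 ≤ j → min (val p i) (val q j) = m →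
      i + j + 1 + slack p q m < N → e i j = tev p q i j := by
  induction m using Nat.strong_induction_on with
  | _ m IH =>
    intro i j hi hj hmin h
    have IH' : ∀ i j, 1 ≤ i → 1 ≤ j → min (val p i) (val q j) < m →
        i + j + 1 + slack p q (min (val p i) (val q j)) < N → e i j = tev p q i j :=
      fun i j hi hj hlt hb => IH _ hlt i j hi hj rfl hb
    rcases Nat.le_total (val p i) (val q j) with hle | hle
    · have hm : val p i = m := by omega
      exact (vline hp hq hg m IH' i hi hm j h).2 hj
    · have hm : val q j = m := by omega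
      have hT := vline hq hp hg.transpose m (by
        intro i j hi hj hlt hb
        rw [min_comm, slack_symm] at hb
        rw [min_comm] at hlt
        rw [IH' j i hj hi hlt (by omega), tev_flip]) j hj hm i (by
          rw [slack_symm]
          omega)
      have := hT.2 hi
      rw [← tev_flip] at this
      have h2 := congrArg Ev.flip this
      rwa [Ev.flip_flip, Ev.flip_flip] at h2

/-- The announcements are right except near the base. -/
theorem events (hp : 2 ≤ p) (hq : 2 ≤ q) (hg : EvGrid p q N e V H) {i j : ℕ} (hi : 1 ≤ i)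
    (hj : 1 ≤ j) (h : 2 * (i + j) < N + 1) : e i j = tev p q i j := by
  refine events_aux hp hq hg _ i j hi hj rfl ?_
  have h1 := slack_le hp hq (min (val p i) (val q j))
  have h2 : p ^ (min (val p i) (val q j)) ≤ i :=
    Nat.le_of_dvd hi ((pow_dvd_iff hp hi).2 (min_le_left _ _))
  have h3 : q ^ (min (val p i) (val q j)) ≤ j :=
    Nat.le_of_dvd hj ((pow_dvd_iff hq hj).2 (min_le_right _ _))
  omega

/-- The counters of the vertical lines are right except near the base. -/
theorem counters (hp : 2 ≤ p) (hq : 2 ≤ q) (hg : EvGrid p q N e V H) {i : ℕ} (hi : 1 ≤ i) :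
    ∀ j, 2 * (i + j) < N → V i j = tctr p q i j := by
  intro j
  induction j with
  | zero =>
    intro h
    rw [tctr_zero]
    exact hg.v0 i hi (by omega)
  | succ j ih =>
    intro h
    have hstep := hg.vs i j hi (by omega)
    rw [events hp hq hg hi (by omega) (by omega), ih (by omega)] at hstep
    exact hstep.det (true_step hp hq hi j)

/-- The counters of the horizontal lines are right except near the base. -/
theorem counters' (hp : 2 ≤ p) (hq : 2 ≤ q) (hg : EvGrid p q N e V H) {j : ℕ} (hj : 1 ≤ j)
    (i : ℕ) (h : 2 * (i + j) < N) : H i j = tctr q p j i :=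
  counters hq hp hg.transpose hj i (by omega)

end

end Pool.Agent.Lib.MP_4cfe6b_lc
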