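import Pool.Agent.Lib.MP_4cfe6b_lc.Defs

/-!
# Local systems

A local system checks a two-dimensional certificate on the triangle `i + j < n` by constraints
between a node and its two children; the constraints may depend on `i` and `j` modulo `P` and on
whether `i = 0` and `j = 0`.  The language of a local system is both in `𝒩_mod` and in `𝒩_reg`.
-/

namespace Pool.Agent.Lib.MP_4cfe6b_lc

/-- `i` and `i'` are indistinguishable for constraints of period `P` -/
def Sim (P i i' : ℕ) : Prop := i % P = i' % P ∧ (i = 0 ↔ i' = 0)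

theorem Sim.refl (P i : ℕ) : Sim P i i := ⟨rfl, Iff.rfl⟩

theorem Sim.symm {P i i' : ℕ} (h : Sim P i i') : Sim P i' i := ⟨h.1.symm, h.2.symm⟩

theorem Sim.trans {P i j k : ℕ} (h : Sim P i j) (h' : Sim P j k) : Sim P i k :=
  ⟨h.1.trans h'.1, h.2.trans h'.2⟩

/-- the next representative -/
def nxt (P a : ℕ) : ℕ := if a = P then 1 else a + 1

/-- the representative of `i` in `{0, …, P}` -/
def kap (P : ℕ) : ℕ → ℕ
  | 0 => 0
  | i + 1 => nxt P (kap P i)

theorem kap_le {P : ℕ} (hP : 0 < P) (i : ℕ) : kap P i ≤ P := by
  induction i with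
  | zero => exact Nat.zero_le _
  | succ i ih =>
    show nxt P (kap P i) ≤ P
    unfold nxt
    split_ifs <;> omega

theorem kap_sim {P : ℕ} (i : ℕ) : Sim P (kap P i) i := by
  induction i with
  | zero => exact Sim.refl _ _
  | succ i ih =>
    obtain ⟨h1, h2⟩ := ih
    show Sim P (nxt P (kap P i)) (i + 1)
    unfold nxt
    split_ifs with h
    · refine ⟨?_, by omega⟩
      rw [h, Nat.mod_self] at h1
      rw [Nat.add_mod i 1 P, ← h1, Nat.zero_add, Nat.mod_mod]
    · refine ⟨?_, by omega⟩
      rw [Nat.add_mod, h1, ← Nat.add_mod]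

/-- A local system over the alphabet `A`. -/
structure LocSys (A : Type) where
  /-- the certificate symbols -/
  Λ : Type
  fin : Finite Λ
  /-- the period of the constraints -/
  P : ℕ
  hP : 0 < P
  /-- constraint at a base node -/
  Base : ℕ → ℕ → A → Λ → Prop
  /-- constraint between a node and its left and right child -/
  Step : ℕ → ℕ → Λ → Λ → Λ → Prop
  /-- constraint at the apex -/
  Acc : Λ → Prop
  base_sim : ∀ i i' j j' s x, Sim P i i' → Sim P j j' → Base i j s x → Base i' j' s x
  step_sim : ∀ i i' j j' x y z, Sim P i i' → Sim P j j' → Step i j x y z → Step i' j' x y z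

/-- `f` is a certificate of the local system on the triangle of size `n` with base `u`. -/
structure LocSys.Cert {A : Type} (R : LocSys A) (n : ℕ) (u : ℕ → A) (f : ℕ → ℕ → R.Λ) : Prop where
  base : ∀ i j, i + j + 1 = n → R.Base i j (u i) (f i j)
  step : ∀ i j, i + j + 1 < n → R.Step i j (f i j) (f i (j + 1)) (f (i + 1) j)
  acc : R.Acc (f 0 0)

/-- acceptance by a local system -/
def LocSys.Accepts {A : Type} (R : LocSys A) (n : ℕ) (u : ℕ → A) : Prop :=
  ∃ f, R.Cert n u f

/-- the language of a local system over `Option S` -/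
def LocSys.language {S : Type} (R : LocSys (Option S)) : Set (List S) :=
  {w | w ≠ [] ∧ R.Accepts w.length (fun i => w[i]?)}

section ToNTA

variable {S : Type} (R : LocSys (Option S))

/-- the working alphabet: `inr s` for letters, `inl none` for the dead symbol and
`inl (some (a, b, x))` for certificate symbols with coordinates -/
abbrev Sym : Type := Option (Fin (R.P + 1) × Fin (R.P + 1) × R.Λ) ⊕ S

/-- the operation of the automaton of a local system -/
inductive Op : Option (Sym R) → Option (Sym R) → Sym R → Prop
  | dead (x y : Option (Sym R)) : Op x y (Sum.inl none)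
  | base (s : S) (a b : Fin (R.P + 1)) (x : R.Λ) (h : R.Base a b (some s) x) :
      Op none (some (Sum.inr s)) (Sum.inl (some (a, b, x)))
  | step (a b a' b' : Fin (R.P + 1)) (x y z : R.Λ) (ha : (a' : ℕ) = nxt R.P a)
      (hb : (b' : ℕ) = nxt R.P b) (h : R.Step a b x y z) :
      Op (some (Sum.inl (some (a, b', y)))) (some (Sum.inl (some (a', b, z))))
        (Sum.inl (some (a, b, x)))

/-- the automaton of a local system, with a single label -/
def toNTA [Finite S] : NTA S where
  Δ := Unit
  Γ := Sym R
  finΔ := inferInstance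
  finΓ := by
    have := R.fin
    infer_instance
  lab _ _ := ()
  inc := ⟨Sum.inr, Sum.inr_injective⟩
  acc := {γ | ∃ x, R.Acc x ∧ γ = Sum.inl (some (0, 0, x))}
  g _ x y := {γ | Op R x y γ}
  g_nonempty _ x y := ⟨_, Op.dead x y⟩

theorem toNTA_language [Finite S] : (toNTA R).language = R.language := by
  ext w
  constructor
  · rintro ⟨hw, ρ, ⟨hb, hs⟩, x₀, hx₀, hacc⟩
    refine ⟨hw, ?_⟩
    have hn : 0 < w.length := List.length_pos_iff.2 hw
    -- all nodes carry certificate symbols with the right coordinates
    have key : ∀ m, m < w.length → ∀ k ≤ m, ∃ (a b : Fin (R.P + 1)) (x : R.Λ),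
        ρ m k = Sum.inl (some (a, b, x)) ∧ (a : ℕ) = kap R.P k ∧ (b : ℕ) = kap R.P (m - k) := by
      intro m
      induction m with
      | zero =>
        intro _ k hk
        obtain rfl : k = 0 := by omega
        exact ⟨0, 0, x₀, hacc, rfl, rfl⟩
      | succ m ih =>
        intro hm k hk
        have ih' := ih (by omega)
        rcases Nat.lt_or_ge k (m + 1) with hk' | hk'
        · obtain ⟨a, b, x, h1, h2, h3⟩ := ih' k (by omega)
          have h4 : Op R (some (ρ (m + 1) k)) (some (ρ (m + 1) (k + 1))) (ρ m k) :=
            hs m k hm (by omega)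
          rw [h1] at h4
          generalize hy : ρ (m + 1) k = y at h4
          generalize hz : ρ (m + 1) (k + 1) = z at h4
          cases h4 with
          | step a b a' b' x y z ha hb' h =>
            refine ⟨a, b', y, rfl, h2, ?_⟩
            have : m + 1 - k = (m - k) + 1 := by omega
            rw [hb', this, h3]
            rfl
        · obtain rfl : k = m + 1 := by omega
          obtain ⟨a, b, x, h1, h2, h3⟩ := ih' m le_rfl
          have h4 : Op R (some (ρ (m + 1) m)) (some (ρ (m + 1) (m + 1))) (ρ m m) :=
            hs m m hm le_rfl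
          rw [h1] at h4
          generalize hy : ρ (m + 1) m = y at h4
          generalize hz : ρ (m + 1) (m + 1) = z at h4
          cases h4 with
          | step a b a' b' x y z ha hb' h =>
            refine ⟨a', b, z, rfl, ?_, ?_⟩
            · rw [ha, h2]
              rfl
            · rw [h3]
              simp
    have key' : ∀ i j, i + j < w.length → ∃ (a b : Fin (R.P + 1)) (x : R.Λ),
        ρ (i + j) i = Sum.inl (some (a, b, x)) ∧ (a : ℕ) = kap R.P i ∧ (b : ℕ) = kap R.P j := by
      intro i j hij
      have := key (i + j) hij i (by omega)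
      rwa [Nat.add_sub_cancel_left] at this
    let f : ℕ → ℕ → R.Λ := fun i j =>
      match ρ (i + j) i with
      | Sum.inl (some (_, _, x)) => x
      | _ => x₀
    have hf : ∀ i j, i + j < w.length → ∃ (a b : Fin (R.P + 1)),
        ρ (i + j) i = Sum.inl (some (a, b, f i j)) ∧ (a : ℕ) = kap R.P i ∧
          (b : ℕ) = kap R.P j := by
      intro i j hij
      obtain ⟨a, b, x, h1, h2, h3⟩ := key' i j hij
      refine ⟨a, b, ?_, h2, h3⟩
      have : f i j = x := by
        simp only [f, h1]
      rw [this]
      exact h1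
    refine ⟨f, ⟨?_, ?_, ?_⟩⟩
    · intro i j hij
      obtain ⟨a, b, h1, h2, h3⟩ := hf i j (by omega)
      have hi : i < w.length := by omega
      have h4 : Op R none (some (Sum.inr w[i])) (ρ (w.length - 1) i) := hb i hi
      have h5 : w.length - 1 = i + j := by omega
      rw [h5, h1] at h4
      cases h4 with
      | base s a b x h =>
        rw [List.getElem?_eq_getElem hi]
        refine R.base_sim _ _ _ _ _ _ ?_ ?_ h
        · rw [h2]
          exact kap_sim i
        · rw [h3]
          exact kap_sim j
    · intro i j hij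
      obtain ⟨a, b, h1, h2, h3⟩ := hf i j (by omega)
      obtain ⟨a1, b1, h11, h12, h13⟩ := hf i (j + 1) (by omega)
      obtain ⟨a2, b2, h21, h22, h23⟩ := hf (i + 1) j (by omega)
      have h4 : Op R (some (ρ (i + j + 1) i)) (some (ρ (i + j + 1) (i + 1))) (ρ (i + j) i) :=
        hs (i + j) i hij (by omega)
      have e1 : i + j + 1 = i + (j + 1) := by omega
      have e2 : i + (j + 1) = i + 1 + j := by omega
      rw [h1, e1, h11, e2, h21] at h4
      generalize hx : f i j = x at h4
      generalize hy : f i (j + 1) = y at h4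
      generalize hz : f (i + 1) j = z at h4
      cases h4 with
      | step a b a' b' x y z ha hb' h =>
        refine R.step_sim _ _ _ _ _ _ _ ?_ ?_ h
        · rw [h2]
          exact kap_sim i
        · rw [h3]
          exact kap_sim j
    · obtain ⟨a, b, h1, -, -⟩ := hf 0 0 (by omega)
      rw [hacc] at h1
      have : x₀ = f 0 0 := by
        injection h1 with h1
        injection h1 with h1
        injection h1 with _ h1
        injection h1
      rw [← this]
      exact hx₀
  · rintro ⟨hw, f, hf⟩
    have hn : 0 < w.length := List.length_pos_iff.2 hw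
    have hlt : ∀ i, kap R.P i < R.P + 1 := fun i => Nat.lt_succ_of_le (kap_le R.hP i)
    let F : ℕ → ℕ → Sym R := fun i j => Sum.inl (some (⟨kap R.P i, hlt i⟩, ⟨kap R.P j, hlt j⟩,
      f i j))
    refine ⟨hw, fun m k => F k (m - k), ⟨?_, ?_⟩, ⟨f 0 0, hf.acc, rfl⟩⟩
    · intro k hk
      refine Op.base w[k] _ _ _ ?_
      have h := hf.base k (w.length - 1 - k) (by omega)
      rw [List.getElem?_eq_getElem hk] at h
      exact R.base_sim _ _ _ _ _ _ (kap_sim _).symm (kap_sim _).symm h
    · intro m k hm hk
      have h := hf.step k (m - k) (by omega)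
      have e1 : m + 1 - k = (m - k) + 1 := by omega
      have e2 : m + 1 - (k + 1) = m - k := by omega
      have hgoal : Op R (some (F k (m - k + 1))) (some (F (k + 1) (m - k))) (F k (m - k)) := by
        refine Op.step _ _ _ _ _ _ _ rfl rfl ?_
        exact R.step_sim _ _ _ _ _ _ _ (kap_sim _).symm (kap_sim _).symm h
      show Op R (some (F k (m + 1 - k))) (some (F (k + 1) (m + 1 - (k + 1)))) (F k (m - k))
      rw [e1, e2]
      exact hgoal

theorem block_unit (p q : ℕ) (M : Unit → ℕ → ℕ → Unit) (N : ℕ) (δ : Unit) (i j : ℕ) :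
    block p q M N δ i j = () := rfl

theorem language_mem_NMod [Finite S] : R.language ∈ NMod S := by
  refine ⟨toNTA R, ?_, toNTA_language R⟩
  exact ⟨2, 2, fun _ _ _ => (), (), le_rfl, le_rfl, rfl, fun i j => ⟨0, fun N _ => rfl⟩⟩

theorem nextRow_length {Δ : Type} (l r : Δ → Δ) (h : Δ → Δ → Δ) (w : List Δ) (hw : w ≠ []) :
    (nextRow l r h w).length = w.length + 1 := by
  obtain ⟨x, xs, rfl⟩ := List.exists_cons_of_ne_nil hw
  simp [nextRow, List.getLast?_cons]

theorem row_length {Δ : Type} (l r : Δ → Δ) (h : Δ → Δ → Δ) (a : Δ) (m : ℕ) :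
    ((nextRow l r h)^[m] [a]).length = m + 1 := by
  induction m with
  | zero => rfl
  | succ m ih =>
    rw [Function.iterate_succ_apply', nextRow_length, ih]
    intro h0
    rw [h0] at ih
    simp at ih

theorem isTopDownRegular_unit : IsTopDownRegular (fun _ _ => () : ℕ → ℕ → Unit) := by
  refine ⟨fun _ => (), fun _ => (), fun _ _ => (), (), fun m k hk => ?_⟩
  have h := row_length (Δ := Unit) (fun _ => ()) (fun _ => ()) (fun _ _ => ()) () m
  rw [List.getElem?_eq_getElem (by rw [h]; omega)]

theorem language_mem_NReg [Finite S] : R.language ∈ NReg S :=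
  ⟨toNTA R, isTopDownRegular_unit, toNTA_language R⟩

end ToNTA

end Pool.Agent.Lib.MP_4cfe6b_lc
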