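import Pool.Agent.Lib.MP_4cfe6b_lc.Types

/-!
# Modular labellings are verifiable
-/

namespace Pool.Agent.Lib.MP_4cfe6b_lc

/-- states of the certificate of a modular labelling -/
structure MState (Δ : Type) (p q : ℕ) where
  /-- announcement in the main grid -/
  e : Ev
  /-- counters of the vertical line in the main grid -/
  V : Fin q × Fin q × Fin q
  /-- counters of the horizontal line in the main grid -/
  H : Fin p × Fin p × Fin p
  /-- announcement in the auxiliary grid -/
  e' : Ev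
  /-- counters of the vertical line in the auxiliary grid -/
  V' : Fin p × Fin p × Fin p
  /-- counters of the horizontal line in the auxiliary grid -/
  H' : Fin p × Fin p × Fin p
  /-- type of the vertical line in the main grid -/
  τ : Δ
  /-- type of the horizontal line in the main grid -/
  σ : Δ
  /-- type of the vertical line in the auxiliary grid -/
  τ' : Δ
  /-- type of the horizontal line in the auxiliary grid -/
  σ' : Δ
  /-- announced label -/
  lb : Δ

instance {Δ : Type} {p q : ℕ} [Finite Δ] : Finite (MState Δ p q) := by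
  refine Finite.of_injective (β := Ev × (Fin q × Fin q × Fin q) × (Fin p × Fin p × Fin p) × Ev ×
    (Fin p × Fin p × Fin p) × (Fin p × Fin p × Fin p) × Δ × Δ × Δ × Δ × Δ)
    (fun x => (x.e, x.V, x.H, x.e', x.V', x.H', x.τ, x.σ, x.τ', x.σ', x.lb)) ?_
  rintro ⟨a1, a2, a3, a4, a5, a6, a7, a8, a9, a10, a11⟩
    ⟨b1, b2, b3, b4, b5, b6, b7, b8, b9, b10, b11⟩ h
  simp only [Prod.mk.injEq] at h
  obtain ⟨rfl, rfl, rfl, rfl, rfl, rfl, rfl, rfl, rfl, rfl, rfl⟩ := h
  rfl

/-- the counters stored in a state -/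
def ctr {q : ℕ} (x : Fin q × Fin q × Fin q) : Ctr := ⟨x.1, x.2.1, x.2.2⟩

/-- storing counters -/
def toFin (q : ℕ) (hq : 2 ≤ q) (c : Ctr) : Fin q × Fin q × Fin q :=
  (⟨c.u % q, Nat.mod_lt _ (by omega)⟩, ⟨c.t % q, Nat.mod_lt _ (by omega)⟩,
    ⟨c.t' % q, Nat.mod_lt _ (by omega)⟩)

theorem ctr_toFin {q : ℕ} (hq : 2 ≤ q) (p i j : ℕ) :
    ctr (toFin q hq (tctr p q i j)) = tctr p q i j := by
  unfold ctr toFin tctr
  simp only [Ctr.mk.injEq]
  refine ⟨?_, Nat.mod_eq_of_lt (dig_lt hq _ _), Nat.mod_eq_of_lt (dig_lt hq _ _)⟩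
  apply Nat.mod_eq_of_lt
  split_ifs
  · omega
  · exact dig_lt hq _ _

/-- constraint between a node and its children -/
structure MStep {Δ : Type} (p q : ℕ) (M : Δ → ℕ → ℕ → Δ) (δ₀ : Δ) (i j : ℕ)
    (x y z : MState Δ p q) : Prop where
  v0 : 1 ≤ i → j = 0 → ctr x.V = ⟨0, 0, 0⟩
  vs : 1 ≤ i → CStep q (p ∣ i) y.e (ctr x.V) (ctr y.V)
  h0 : 1 ≤ j → i = 0 → ctr x.H = ⟨0, 0, 0⟩
  hs : 1 ≤ j → CStep p (q ∣ j) z.e.flip (ctr x.H) (ctr z.H)
  v0' : 1 ≤ i → j = 0 → ctr x.V' = ⟨0, 0, 0⟩
  vs' : 1 ≤ i → CStep p (p ∣ i) y.e' (ctr x.V') (ctr y.V')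
  h0' : 1 ≤ j → i = 0 → ctr x.H' = ⟨0, 0, 0⟩
  hs' : 1 ≤ j → CStep p (p ∣ j) z.e'.flip (ctr x.H') (ctr z.H')
  tau' : 1 ≤ i → y.τ' = x.τ'
  sig0' : 1 ≤ j → i = 0 → x.σ' = δ₀
  sig' : 1 ≤ j → z.e' ≠ Ev.G1 → z.e' ≠ Ev.G2 → z.σ' = x.σ'
  evE' : 1 ≤ i → 1 ≤ j → x.e' = Ev.E → x.τ' = x.σ'
  evL' : 1 ≤ i → 1 ≤ j → x.e' = Ev.L1 → x.τ' = M x.σ' (ctr x.H').t 0
  tau : 1 ≤ i → y.e ≠ Ev.L1 → y.e ≠ Ev.L2 → y.τ = x.τ
  tau0 : 1 ≤ i → j = 0 → x.τ = x.τ'
  sig : 1 ≤ j → z.e ≠ Ev.G1 → z.e ≠ Ev.G2 → z.σ = x.σ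
  evE : 1 ≤ i → 1 ≤ j → x.e = Ev.E → x.τ = x.σ
  evL : 1 ≤ i → 1 ≤ j → x.e = Ev.L1 → x.τ = M x.σ (ctr x.H).t (ctr x.V).t'
  evL1 : 1 ≤ i → y.e = Ev.L1 → (ctr y.V).t' = 1 → x.τ = M y.σ (ctr y.H).t 0
  lb0 : ¬ p ∣ i → x.lb = M x.τ (i % p) (j % q)
  lb1 : p ∣ i → x.lb = M z.τ (i % p) (j % q)

theorem Sim.mod_left {p q i i' : ℕ} (h : Sim (p * q) i i') : i % p = i' % p :=
  Nat.ModEq.of_mul_right q h.1

theorem Sim.mod_right {p q i i' : ℕ} (h : Sim (p * q) i i') : i % q = i' % q :=
  Nat.ModEq.of_mul_left p h.1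

theorem Sim.dvd_left {p q i i' : ℕ} (h : Sim (p * q) i i') : p ∣ i ↔ p ∣ i' := by
  rw [Nat.dvd_iff_mod_eq_zero, Nat.dvd_iff_mod_eq_zero, h.mod_left]

theorem Sim.dvd_right {p q i i' : ℕ} (h : Sim (p * q) i i') : q ∣ i ↔ q ∣ i' := by
  rw [Nat.dvd_iff_mod_eq_zero, Nat.dvd_iff_mod_eq_zero, h.mod_right]

theorem Sim.pos {P i i' : ℕ} (h : Sim P i i') : 1 ≤ i' → 1 ≤ i := by
  have := h.2
  omega

theorem MStep.sim {Δ : Type} {p q : ℕ} {M : Δ → ℕ → ℕ → Δ} {δ₀ : Δ} {i i' j j' : ℕ}
    {x y z : MState Δ p q} (hi : Sim (p * q) i i') (hj : Sim (p * q) j j')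
    (h : MStep p q M δ₀ i j x y z) : MStep p q M δ₀ i' j' x y z where
  v0 h1 h2 := h.v0 (hi.pos h1) (hj.2.2 h2)
  vs h1 := (h.vs (hi.pos h1)).congr hi.dvd_left
  h0 h1 h2 := h.h0 (hj.pos h1) (hi.2.2 h2)
  hs h1 := (h.hs (hj.pos h1)).congr hj.dvd_right
  v0' h1 h2 := h.v0' (hi.pos h1) (hj.2.2 h2)
  vs' h1 := (h.vs' (hi.pos h1)).congr hi.dvd_left
  h0' h1 h2 := h.h0' (hj.pos h1) (hi.2.2 h2)
  hs' h1 := (h.hs' (hj.pos h1)).congr hj.dvd_left
  tau' h1 := h.tau' (hi.pos h1)
  sig0' h1 h2 := h.sig0' (hj.pos h1) (hi.2.2 h2)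
  sig' h1 := h.sig' (hj.pos h1)
  evE' h1 h2 := h.evE' (hi.pos h1) (hj.pos h2)
  evL' h1 h2 := h.evL' (hi.pos h1) (hj.pos h2)
  tau h1 := h.tau (hi.pos h1)
  tau0 h1 h2 := h.tau0 (hi.pos h1) (hj.2.2 h2)
  sig h1 := h.sig (hj.pos h1)
  evE h1 h2 := h.evE (hi.pos h1) (hj.pos h2)
  evL h1 h2 := h.evL (hi.pos h1) (hj.pos h2)
  evL1 h1 := h.evL1 (hi.pos h1)
  lb0 h1 := by
    rw [h.lb0 (mt hi.dvd_left.1 h1), hi.mod_left, hj.mod_right]
  lb1 h1 := by
    rw [h.lb1 (hi.dvd_left.2 h1), hi.mod_left, hj.mod_right]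

/-- the certificate system of a modular labelling -/
def modCert {Δ : Type} [Finite Δ] (p q : ℕ) (hp : 2 ≤ p) (hq : 2 ≤ q) (M : Δ → ℕ → ℕ → Δ)
    (δ₀ : Δ) : CertSys Δ where
  Λ := MState Δ p q
  fin := inferInstance
  P := p * q
  hP := Nat.mul_pos (by omega) (by omega)
  Step := MStep p q M δ₀
  step_sim _ _ _ _ _ _ _ hi hj h := h.sim hi hj
  lb := MState.lb

section

variable {Δ : Type} [Finite Δ] {p q : ℕ} (hp : 2 ≤ p) (hpq : p ≤ q) {M : Δ → ℕ → ℕ → Δ} {δ₀ : Δ}
  {T : ℕ → ℕ → Δ} (hT0 : T 0 0 = δ₀)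
  (hT : ∀ i j, T i j = M (T (i / p) (j / q)) (i % p) (j % q))

theorem cmp_not_G {a b : ℕ} (h1 : cmpEv a b ≠ Ev.G1) (h2 : cmpEv a b ≠ Ev.G2) : a ≤ b := by
  by_contra hcon
  unfold cmpEv at h1 h2
  rcases Nat.lt_or_ge (b + 1) a with h | h
  · rw [if_pos (by omega)] at h2
    exact h2 rfl
  · rw [if_neg (by omega), if_pos (by omega)] at h1
    exact h1 rfl

theorem cmp_not_L {a b : ℕ} (h1 : cmpEv a b ≠ Ev.L1) (h2 : cmpEv a b ≠ Ev.L2) : b ≤ a := by
  refine cmp_not_G (a := b) (b := a) ?_ ?_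
  · rw [← cmpEv_flip]
    intro h
    apply h1
    rw [← Ev.flip_flip (cmpEv a b), h]
    rfl
  · rw [← cmpEv_flip]
    intro h
    apply h2
    rw [← Ev.flip_flip (cmpEv a b), h]
    rfl

theorem cmp_E {a b : ℕ} (h : cmpEv a b = Ev.E) : a = b := by
  unfold cmpEv at h
  split_ifs at h
  assumption

theorem cmp_L1 {a b : ℕ} (h : cmpEv a b = Ev.L1) : a + 1 = b := by
  unfold cmpEv at h
  split_ifs at h
  assumption

theorem div_step {p b i : ℕ} (hp : 2 ≤ p) (h : val p (i + 1) ≤ b) :
    (i + 1) / p ^ (b + 1) = i / p ^ (b + 1) := by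
  apply Nat.succ_div_of_not_dvd
  rw [pow_dvd_iff hp (by omega)]
  omega

include hpq hT0 hT in
theorem modCert_verifies :
    (modCert p q hp (by omega) M δ₀).Verifies 24 T := by
  have hq : 2 ≤ q := by omega
  constructor
  · -- the right certificate
    refine ⟨fun i j =>
      { e := tev p q i j
        V := toFin q hq (tctr p q i j)
        H := toFin p hp (tctr q p j i)
        e' := tev p p i j
        V' := toFin p hp (tctr p p i j)
        H' := toFin p hp (tctr p p j i)
        τ := T (i / p ^ (val p i + 1)) (j / q ^ (val p i + 1))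
        σ := T (i / p ^ (val q j + 1)) (j / q ^ (val q j + 1))
        τ' := T (i / p ^ (val p i + 1)) 0
        σ' := T (i / p ^ (val p j + 1)) 0
        lb := T i j }, ?_, fun _ _ => rfl⟩
    intro i j
    constructor
    case v0 =>
      rintro h1 rfl
      simp only [ctr_toFin]
      exact tctr_zero _ _ _
    case vs =>
      intro h1
      simp only [ctr_toFin]
      exact true_step hp hq h1 j
    case h0 =>
      rintro h1 rfl
      simp only [ctr_toFin]
      exact tctr_zero _ _ _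
    case hs =>
      intro h1
      simp only [ctr_toFin, tev_flip]
      exact true_step hq hp h1 i
    case v0' =>
      rintro h1 rfl
      simp only [ctr_toFin]
      exact tctr_zero _ _ _
    case vs' =>
      intro h1
      simp only [ctr_toFin]
      exact true_step hp hp h1 j
    case h0' =>
      rintro h1 rfl
      simp only [ctr_toFin]
      exact tctr_zero _ _ _
    case hs' =>
      intro h1
      simp only [ctr_toFin, tev_flip]
      exact true_step hp hp h1 i
    case tau' =>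
      intro h1
      rfl
    case sig0' =>
      rintro h1 rfl
      show T (0 / _) 0 = δ₀
      rw [Nat.zero_div, hT0]
    case sig' =>
      intro h1 h2 h3
      have := cmp_not_G h2 h3
      show T ((i + 1) / p ^ (val p j + 1)) 0 = T (i / p ^ (val p j + 1)) 0
      rw [div_step hp this]
    case evE' =>
      intro h1 h2 h3
      have := cmp_E h3
      show T (i / p ^ (val p i + 1)) 0 = T (i / p ^ (val p j + 1)) 0
      rw [this]
    case evL' =>
      intro h1 h2 h3
      have := cmp_L1 h3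
      simp only [ctr_toFin]
      show T (i / p ^ (val p i + 1)) 0 = M (T (i / p ^ (val p j + 1)) 0) (i / p ^ (val p j) % p) 0
      rw [← this, hT, Nat.zero_div, Nat.zero_mod, Nat.div_div_eq_div_mul, ← pow_succ]
    case tau =>
      intro h1 h2 h3
      have := cmp_not_L h2 h3
      show T (i / p ^ (val p i + 1)) ((j + 1) / q ^ (val p i + 1)) =
        T (i / p ^ (val p i + 1)) (j / q ^ (val p i + 1))
      rw [div_step hq this]
    case tau0 =>
      rintro h1 rfl
      show T (i / p ^ (val p i + 1)) (0 / q ^ (val p i + 1)) = T (i / p ^ (val p i + 1)) 0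
      rw [Nat.zero_div]
    case sig =>
      intro h1 h2 h3
      have := cmp_not_G h2 h3
      show T ((i + 1) / p ^ (val q j + 1)) (j / q ^ (val q j + 1)) =
        T (i / p ^ (val q j + 1)) (j / q ^ (val q j + 1))
      rw [div_step hp this]
    case evE =>
      intro h1 h2 h3
      have := cmp_E h3
      show T (i / p ^ (val p i + 1)) (j / q ^ (val p i + 1)) =
        T (i / p ^ (val q j + 1)) (j / q ^ (val q j + 1))
      rw [this]
    case evL =>
      intro h1 h2 h3
      have := cmp_L1 h3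
      simp only [ctr_toFin]
      show T (i / p ^ (val p i + 1)) (j / q ^ (val p i + 1)) =
        M (T (i / p ^ (val q j + 1)) (j / q ^ (val q j + 1))) (i / p ^ (val q j) % p)
          (j / q ^ (val p i + 1) % q)
      rw [← this, hT, Nat.div_div_eq_div_mul, ← pow_succ, Nat.div_div_eq_div_mul, ← pow_succ]
    case evL1 =>
      intro h1 h2 h3
      have := cmp_L1 h2
      simp only [ctr_toFin] at h3
      simp only [ctr_toFin]
      change (j + 1) / q ^ (val p i + 1) % q = 1 at h3
      show T (i / p ^ (val p i + 1)) (j / q ^ (val p i + 1)) =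
        M (T (i / p ^ (val q (j + 1) + 1)) ((j + 1) / q ^ (val q (j + 1) + 1)))
          (i / p ^ (val q (j + 1)) % p) 0
      have hdvd : q ^ (val p i + 1) ∣ j + 1 := by
        rw [pow_dvd_iff hq (by omega)]
        omega
      rw [← this, hT, Nat.div_div_eq_div_mul, ← pow_succ]
      have h4 : (j + 1) / q ^ (val p i + 1) = j / q ^ (val p i + 1) + 1 :=
        Nat.succ_div_of_dvd hdvd
      rw [h4] at h3
      have h5 : j / q ^ (val p i + 1) % q = 0 := by
        have h6 := Nat.mod_lt (j / q ^ (val p i + 1)) (by omega : 0 < q)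
        rw [Nat.add_mod, Nat.mod_eq_of_lt (by omega : 1 < q)] at h3
        rcases Nat.lt_or_ge (j / q ^ (val p i + 1) % q + 1) q with h7 | h7
        · rw [Nat.mod_eq_of_lt h7] at h3
          omega
        · have h8 : j / q ^ (val p i + 1) % q + 1 = q := by omega
          rw [h8, Nat.mod_self] at h3
          omega
      have h6 : (j + 1) / q ^ (val p i + 1 + 1) = j / q ^ (val p i + 1) / q := by
        rw [pow_succ q (val p i + 1), ← Nat.div_div_eq_div_mul, h4]
        apply Nat.succ_div_of_not_dvd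
        intro h7
        rw [Nat.mod_eq_zero_of_dvd h7] at h3
        omega
      rw [h5, h6]
    case lb0 =>
      intro h1
      have hi : 1 ≤ i := by
        rcases Nat.eq_zero_or_pos i with rfl | h
        · exact absurd (dvd_zero p) h1
        · exact h
      have hv : val p i = 0 := by
        rw [dvd_iff_val hp hi] at h1
        omega
      show T i j = M (T (i / p ^ (val p i + 1)) (j / q ^ (val p i + 1))) (i % p) (j % q)
      rw [hv, Nat.zero_add, pow_one, pow_one, ← hT]
    case lb1 =>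
      intro h1
      have hnd : ¬ p ∣ i + 1 := by
        rw [Nat.dvd_add_right h1]
        intro h
        have := Nat.le_of_dvd Nat.one_pos h
        omega
      have hv : val p (i + 1) = 0 := by
        rw [dvd_iff_val hp (by omega)] at hnd
        omega
      show T i j = M (T ((i + 1) / p ^ (val p (i + 1) + 1)) (j / q ^ (val p (i + 1) + 1)))
        (i % p) (j % q)
      rw [hv, Nat.zero_add, pow_one, pow_one, Nat.succ_div_of_not_dvd hnd, ← hT]
  · -- soundness
    intro N f hf
    have hstep : ∀ i j, i + j + 1 < N → MStep p q M δ₀ i j (f i j) (f i (j + 1)) (f (i + 1) j) := hf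
    have hgm : EvGrid p q N (fun i j => (f i j).e) (fun i j => ctr (f i j).V)
        (fun i j => ctr (f i j).H) :=
      { v0 := fun i hi hN => (hstep i 0 hN).v0 hi rfl
        vs := fun i j hi hN => (hstep i j hN).vs hi
        h0 := fun j hj hN => (hstep 0 j (by omega)).h0 hj rfl
        hs := fun i j hj hN => (hstep i j hN).hs hj }
    have hga : EvGrid p p N (fun i j => (f i j).e') (fun i j => ctr (f i j).V')
        (fun i j => ctr (f i j).H') :=
      { v0 := fun i hi hN => (hstep i 0 hN).v0' hi rfl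
        vs := fun i j hi hN => (hstep i j hN).vs' hi
        h0 := fun j hj hN => (hstep 0 j (by omega)).h0' hj rfl
        hs := fun i j hj hN => (hstep i j hN).hs' hj }
    have haux : AuxGrid p N M δ₀ (fun i j => (f i j).e') (fun i j => ctr (f i j).V')
        (fun i j => ctr (f i j).H') (fun i j => (f i j).τ') (fun i j => (f i j).σ') :=
      { grid := hga
        tau := fun i j hi hN => (hstep i j hN).tau' hi
        sig0 := fun j hj hN => (hstep 0 j (by omega)).sig0' hj rfl
        sig := fun i j hj hN => (hstep i j hN).sig' hj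
        evE := fun i j hi hj hN => (hstep i j hN).evE' hi hj
        evL := fun i j hi hj hN => (hstep i j hN).evL' hi hj }
    have hmain : MainGrid p q N M (fun i j => (f i j).e) (fun i j => ctr (f i j).V)
        (fun i j => ctr (f i j).H) (fun i j => (f i j).τ) (fun i j => (f i j).σ) :=
      { grid := hgm
        tau := fun i j hi hN => (hstep i j hN).tau hi
        sig := fun i j hj hN => (hstep i j hN).sig hj
        evE := fun i j hi hj hN => (hstep i j hN).evE hi hj
        evL := fun i j hi hj hN => (hstep i j hN).evL hi hj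
        evL' := fun i j hi hN => (hstep i j hN).evL1 hi }
    have htau : ∀ i j, 1 ≤ i → 12 * (i + 2 * j) < N →
        (f i j).τ = T (i / p ^ (val p i + 1)) (j / q ^ (val p i + 1)) := by
      intro i j hi hN
      refine main_tau hp hpq hmain hT (i + 2 * j) (by omega) ?_ _ i j _ hi rfl rfl ?_ (by omega)
      · intro i' hi' hle
        show (f i' 0).τ = _
        rw [(hstep i' 0 (by omega)).tau0 hi' rfl]
        exact aux_tau' hp haux hT0 hT i' hi' (by omega)
      · have h1 : (2 * (j / q ^ (val p i + 1)) - 1) * q ^ (val p i + 1) ≤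
            2 * (j / q ^ (val p i + 1)) * q ^ (val p i + 1) :=
          Nat.mul_le_mul_right _ (by omega)
        have h2 : j / q ^ (val p i + 1) * q ^ (val p i + 1) ≤ j := Nat.div_mul_le_self _ _
        rw [Nat.mul_assoc] at h1
        omega
    intro i j hN
    show (f i j).lb = T i j
    by_cases hd : p ∣ i
    · have hnd : ¬ p ∣ i + 1 := by
        rw [Nat.dvd_add_right hd]
        intro h
        have := Nat.le_of_dvd Nat.one_pos h
        omega
      have hv : val p (i + 1) = 0 := by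
        rw [dvd_iff_val hp (by omega)] at hnd
        omega
      have h1 := htau (i + 1) j (by omega) (by omega)
      rw [hv, Nat.zero_add, pow_one, pow_one, Nat.succ_div_of_not_dvd hnd] at h1
      rw [(hstep i j (by omega)).lb1 hd, h1, ← hT]
    · have hi : 1 ≤ i := by
        rcases Nat.eq_zero_or_pos i with rfl | h
        · exact absurd (dvd_zero p) hd
        · exact h
      have hv : val p i = 0 := by
        rw [dvd_iff_val hp hi] at hd
        omega
      have h1 := htau i j hi (by omega)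
      rw [hv, Nat.zero_add, pow_one, pow_one] at h1
      rw [(hstep i j (by omega)).lb0 hd, h1, ← hT]

end

/-- exchange of the two coordinates -/
def CertSys.transpose {Δ : Type} (C : CertSys Δ) : CertSys Δ where
  Λ := C.Λ
  fin := C.fin
  P := C.P
  hP := C.hP
  Step i j x y z := C.Step j i x z y
  step_sim _ _ _ _ _ _ _ hi hj h := C.step_sim _ _ _ _ _ _ _ hj hi h
  lb := C.lb

theorem CertSys.Verifies.transpose {Δ : Type} {C : CertSys Δ} {c : ℕ} {T : ℕ → ℕ → Δ}
    (h : C.Verifies c T) : C.transpose.Verifies c (fun i j => T j i) := by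
  constructor
  · obtain ⟨F, hF, hF'⟩ := h.complete
    exact ⟨fun i j => F j i, fun i j => hF j i, fun i j => hF' j i⟩
  · intro N f hf i j hij
    refine h.sound N (fun i j => f j i) (fun i j hij => hf j i (by omega)) j i ?_
    have e : j + i + 1 = i + j + 1 := by omega
    rw [e]
    exact hij

theorem block_succ {Δ : Type} (p q : ℕ) (M : Δ → ℕ → ℕ → Δ) (N : ℕ) :
    ∀ (δ : Δ) (i j : ℕ), i < p ^ (N + 1) → j < q ^ (N + 1) →
      block p q M (N + 1) δ i j = M (block p q M N δ (i / p) (j / q)) (i % p) (j % q) := by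
  induction N with
  | zero =>
    intro δ i j hi hj
    rw [Nat.zero_add, pow_one] at hi hj
    show M δ (i / p ^ 0) (j / q ^ 0) = M δ (i % p) (j % q)
    rw [pow_zero, pow_zero, Nat.div_one, Nat.div_one, Nat.mod_eq_of_lt hi, Nat.mod_eq_of_lt hj]
  | succ N ih =>
    intro δ i j hi hj
    have hp : 0 < p := by
      rcases Nat.eq_zero_or_pos p with rfl | h
      · simp at hi
      · exact h
    have hq : 0 < q := by
      rcases Nat.eq_zero_or_pos q with rfl | h
      · simp at hj
      · exact h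
    have key : ∀ {p : ℕ} (i : ℕ), 0 < p → i % p ^ (N + 1) / p = i / p % p ^ N := by
      intro p i hp
      rw [pow_succ', Nat.mod_mul_right_div_self]
    have key' : ∀ {p : ℕ} (i : ℕ), i % p ^ (N + 1) % p = i % p := fun i =>
      Nat.mod_mod_of_dvd _ (dvd_pow_self _ (by omega))
    have key'' : ∀ {p : ℕ} (i : ℕ), i / p / p ^ N = i / p ^ (N + 1) := by
      intro p i
      rw [Nat.div_div_eq_div_mul, ← pow_succ']
    show block p q M (N + 1) (M δ (i / p ^ (N + 1)) (j / q ^ (N + 1))) (i % p ^ (N + 1))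
      (j % q ^ (N + 1)) = M (block p q M N (M δ (i / p / p ^ N) (j / q / q ^ N)) (i / p % p ^ N)
        (j / q % q ^ N)) (i % p) (j % q)
    rw [ih _ _ _ (Nat.mod_lt _ (Nat.pow_pos hp)) (Nat.mod_lt _ (Nat.pow_pos hq)), key i hp,
      key j hq, key', key', key'', key'']

theorem exists_verifies_of_modular {Δ : Type} [Finite Δ] (lab : ℕ → ℕ → Δ)
    (hlab : IsModular lab) :
    ∃ C : CertSys Δ, C.Verifies 24 (fun i j => lab (i + j) i) := by
  obtain ⟨p, q, M, δ₀, hp, hq, hM, hlab⟩ := hlab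
  have hT0 : lab (0 + 0) 0 = δ₀ := by
    obtain ⟨N₀, h⟩ := hlab 0 0
    rw [h N₀ le_rfl]
    have : ∀ N, block p q M N δ₀ 0 0 = δ₀ := by
      intro N
      induction N with
      | zero => rfl
      | succ N ih =>
        show block p q M N (M δ₀ (0 / p ^ N) (0 / q ^ N)) (0 % p ^ N) (0 % q ^ N) = δ₀
        rw [Nat.zero_div, Nat.zero_div, Nat.zero_mod, Nat.zero_mod, hM, ih]
    exact this N₀
  have hT : ∀ i j, lab (i + j) i = M (lab (i / p + j / q) (i / p)) (i % p) (j % q) := by
    intro i j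
    obtain ⟨N₁, h1⟩ := hlab i j
    obtain ⟨N₂, h2⟩ := hlab (i / p) (j / q)
    have hi : i < p ^ (N₁ + N₂ + i + j + 1) :=
      lt_of_lt_of_le (Nat.lt_pow_self (by omega)) (Nat.pow_le_pow_right (by omega)
        (by omega : i ≤ N₁ + N₂ + i + j + 1))
    have hj : j < q ^ (N₁ + N₂ + i + j + 1) :=
      lt_of_lt_of_le (Nat.lt_pow_self (by omega)) (Nat.pow_le_pow_right (by omega)
        (by omega : j ≤ N₁ + N₂ + i + j + 1))
    rw [h1 (N₁ + N₂ + i + j + 1) (by omega), h2 (N₁ + N₂ + i + j) (by omega),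
      block_succ p q M _ _ _ _ hi hj]
  rcases Nat.le_total p q with hpq | hpq
  · exact ⟨_, modCert_verifies (T := fun i j => lab (i + j) i) hp hpq hT0 hT⟩
  · have h := modCert_verifies (p := q) (q := p) (M := fun δ s t => M δ t s) (δ₀ := δ₀)
      (T := fun i j => lab (j + i) j) hq hpq hT0 (fun i j => hT j i)
    exact ⟨_, h.transpose⟩

end Pool.Agent.Lib.MP_4cfe6b_lc
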