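import Pool.Agent.Lib.MP_4cfe6b_lc.LocSys

/-!
# Elimination of padding

If `V` is a local system over `Option S` and `c ≥ 2`, then there is a local system accepting `w` iff
`V` accepts the word of length `c * |w|` obtained by appending the letter `none`.
-/

namespace Pool.Agent.Lib.MP_4cfe6b_lc

variable {S : Type}

/-- `a mod c` as an element of `Fin c` -/
abbrev fo (c : ℕ) [NeZero c] (a : ℕ) : Fin c := Fin.ofNat c a

theorem fo_val {c : ℕ} [NeZero c] {a : ℕ} (h : a < c) : (fo c a : ℕ) = a :=
  Nat.mod_eq_of_lt h

theorem fo_fin {c : ℕ} [NeZero c] (a : Fin c) : fo c a = a :=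
  Fin.ext (Nat.mod_eq_of_lt a.2)

theorem fo_mul_add {c : ℕ} [NeZero c] (i a : ℕ) : fo c (c * i + a) = fo c a :=
  Fin.ext (by simp [fo, Fin.ofNat])

/-- states of the padding elimination -/
structure PadState (S L : Type) (c : ℕ) where
  /-- the set of all `a` with `c * i + a + j + 1 = n` -/
  mark : Fin c → Prop
  /-- `n ≤ c * i + j` -/
  neg : Prop
  /-- the letter of the base node on the line `j` -/
  hl : Option S
  /-- the letters `c * i + a` -/
  W : Fin c → Option S
  /-- the block of virtual nodes -/
  B : Fin c → Fin c → L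

instance {L : Type} {c : ℕ} [Finite S] [Finite L] : Finite (PadState S L c) := by
  refine Finite.of_injective (β := (Fin c → Prop) × Prop × Option S × (Fin c → Option S) ×
    (Fin c → Fin c → L)) (fun x => (x.mark, x.neg, x.hl, x.W, x.B)) ?_
  rintro ⟨a1, a2, a3, a4, a5⟩ ⟨b1, b2, b3, b4, b5⟩ h
  simp only [Prod.mk.injEq] at h
  obtain ⟨rfl, rfl, rfl, rfl, rfl⟩ := h
  rfl

section

variable {L : Type} {c : ℕ}

/-- constraint at every node -/
structure PadNode (i j : ℕ) (x : PadState S L c) : Prop where
  neg0 : i = 0 → ¬ x.neg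
  mkW : ∀ a, x.mark a → x.W a = x.hl
  endneg : j = 0 → x.neg → ∀ a, x.W a = none
  endmk : j = 0 → ∀ a a' : Fin c, x.mark a → a < a' → x.W a' = none

/-- constraint at a base node -/
structure PadBase (V : LocSys (Option S)) [NeZero c] (i j : ℕ) (s : Option S)
    (x : PadState S V.Λ c) : Prop where
  hl : x.hl = s
  mark : ∀ a : Fin c, x.mark a ↔ (i = 0 ∧ a = fo c 0)
  node : PadNode i j x
  step : ∀ a b, a + b + 1 < c → V.Step (c * i + a) (c * j + b) (x.B (fo c a) (fo c b))
    (x.B (fo c a) (fo c (b + 1))) (x.B (fo c (a + 1)) (fo c b))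
  base : ∀ a b, a + b + 1 = c → V.Base (c * i + a) (c * j + b) (x.W (fo c a))
    (x.B (fo c a) (fo c b))

/-- constraint at an inner node -/
structure PadStep (V : LocSys (Option S)) [NeZero c] (i j : ℕ) (x y z : PadState S V.Λ c) :
    Prop where
  W : y.W = x.W
  hl : z.hl = x.hl
  mark : ∀ a, a + 1 < c → (x.mark (fo c (a + 1)) ↔ y.mark (fo c a))
  mark' : y.mark (fo c (c - 1)) ↔ z.mark (fo c 0)
  mark0 : i = 0 → ¬ x.mark (fo c 0)
  neg : z.neg ↔ (x.neg ∨ ∃ a, x.mark a)
  node : PadNode i j x
  step : ∀ a b, a < c → b < c → V.Step (c * i + a) (c * j + b) (x.B (fo c a) (fo c b))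
    (if b + 1 < c then x.B (fo c a) (fo c (b + 1)) else y.B (fo c a) (fo c 0))
    (if a + 1 < c then x.B (fo c (a + 1)) (fo c b) else z.B (fo c 0) (fo c b))

theorem Sim.affine {P i i' : ℕ} (h : Sim P i i') {c : ℕ} (hc : 0 < c) (a : ℕ) :
    Sim P (c * i + a) (c * i' + a) := by
  refine ⟨(Nat.ModEq.mul_left c h.1).add_right a, ?_⟩
  have h2 := h.2
  constructor
  · intro h0
    have : i = 0 := by
      rcases Nat.eq_zero_or_pos i with h | h
      · exact h
      · have := Nat.mul_pos hc h
        omega
    rw [h2.1 this]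
    omega
  · intro h0
    have : i' = 0 := by
      rcases Nat.eq_zero_or_pos i' with h | h
      · exact h
      · have := Nat.mul_pos hc h
        omega
    rw [h2.2 this]
    omega

theorem PadNode.sim {i i' j j' : ℕ} {P : ℕ} (hi : Sim P i i') (hj : Sim P j j')
    {x : PadState S L c} (h : PadNode i j x) : PadNode i' j' x :=
  ⟨fun h0 => h.neg0 (hi.2.2 h0), h.mkW, fun h0 => h.endneg (hj.2.2 h0),
    fun h0 => h.endmk (hj.2.2 h0)⟩

end

/-- the local system of the padding elimination -/
def pad [Finite S] (V : LocSys (Option S)) (c : ℕ) [NeZero c] : LocSys (Option S) where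
  Λ := PadState S V.Λ c
  fin := by
    have := V.fin
    infer_instance
  P := V.P
  hP := V.hP
  Base := PadBase V
  Step := PadStep V
  Acc x := V.Acc (x.B (fo c 0) (fo c 0))
  base_sim := by
    intro i i' j j' s x hi hj h
    have hc : 0 < c := Nat.pos_of_ne_zero (NeZero.ne c)
    refine ⟨h.hl, fun a => ?_, h.node.sim hi hj, fun a b hab => ?_, fun a b hab => ?_⟩
    · rw [h.mark a, hi.2]
    · exact V.step_sim _ _ _ _ _ _ _ (hi.affine hc a) (hj.affine hc b) (h.step a b hab)
    · exact V.base_sim _ _ _ _ _ _ (hi.affine hc a) (hj.affine hc b) (h.base a b hab)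
  step_sim := by
    intro i i' j j' x y z hi hj h
    have hc : 0 < c := Nat.pos_of_ne_zero (NeZero.ne c)
    refine ⟨h.W, h.hl, h.mark, h.mark', fun h0 => h.mark0 (hi.2.2 h0), h.neg, h.node.sim hi hj,
      fun a b ha hb => ?_⟩
    exact V.step_sim _ _ _ _ _ _ _ (hi.affine hc a) (hj.affine hc b) (h.step a b ha hb)

theorem pad_sound [Finite S] (V : LocSys (Option S)) (c : ℕ) [NeZero c] (n : ℕ)
    (u : ℕ → Option S) (hu : ∀ x, n ≤ x → u x = none)
    (h : (pad V c).Accepts n u) : V.Accepts (c * n) u := by
  obtain ⟨g, hg⟩ := h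
  have hc : 0 < c := Nat.pos_of_ne_zero (NeZero.ne c)
  have hbase : ∀ i j, i + j + 1 = n → PadBase V i j (u i) (g i j) := hg.base
  have hstep : ∀ i j, i + j + 1 < n → PadStep V i j (g i j) (g i (j + 1)) (g (i + 1) j) := hg.step
  have hnode : ∀ i j, i + j < n → PadNode i j (g i j) := by
    intro i j hij
    rcases Nat.lt_or_ge (i + j + 1) n with h | h
    · exact (hstep i j h).node
    · exact (hbase i j (by omega)).node
  have hci : ∀ i, i ≤ c * i := fun i => Nat.le_mul_of_pos_left i hc
  have hW : ∀ i j, i + j < n → (g i j).W = (g i 0).W := by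
    intro i j
    induction j with
    | zero => intro _; rfl
    | succ j ih =>
      intro h
      rw [(hstep i j (by omega)).W, ih (by omega)]
  have hhl : ∀ d i j, i + j + 1 + d = n → (g i j).hl = u (n - 1 - j) := by
    intro d
    induction d with
    | zero =>
      intro i j h
      rw [(hbase i j h).hl]
      congr 1
      omega
    | succ d ih =>
      intro i j h
      rw [← (hstep i j (by omega)).hl]
      exact ih (i + 1) j (by omega)
  have hmk : ∀ x, ∀ i a j, a < c → c * i + a = x → i + j < n →
      ((g i j).mark (fo c a) ↔ x + j + 1 = n) := by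
    intro x
    induction x with
    | zero =>
      intro i a j ha hx hij
      have hi : i = 0 := by have := hci i; omega
      have ha0 : a = 0 := by omega
      subst hi ha0
      rcases Nat.lt_or_ge (0 + j + 1) n with h | h
      · have := (hstep 0 j h).mark0 rfl
        constructor
        · intro h'; exact absurd h' this
        · intro h'; omega
      · rw [(hbase 0 j (by omega)).mark]
        constructor
        · intro _; omega
        · intro _; exact ⟨rfl, rfl⟩
    | succ x ih =>
      intro i a j ha hx hij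
      rcases Nat.eq_zero_or_pos a with rfl | ha0
      · obtain ⟨i', rfl⟩ : ∃ i', i = i' + 1 := by
          rcases Nat.eq_zero_or_pos i with rfl | hi
          · omega
          · exact ⟨i - 1, by omega⟩
        rw [← (hstep i' j (by omega)).mark']
        rw [Nat.mul_succ] at hx
        rw [ih i' (c - 1) (j + 1) (by omega) (by omega) (by omega)]
        omega
      · obtain ⟨a', rfl⟩ : ∃ a', a = a' + 1 := ⟨a - 1, by omega⟩
        rcases Nat.lt_or_ge (i + j + 1) n with h | h
        · rw [(hstep i j h).mark a' ha, ih i a' (j + 1) (by omega) (by omega) (by omega)]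
          omega
        · rw [(hbase i j (by omega)).mark]
          have := hci i
          constructor
          · rintro ⟨_, h2⟩
            have h3 := congrArg Fin.val h2
            rw [fo_val ha, fo_val (by omega : 0 < c)] at h3
            omega
          · intro h2
            omega
  have hneg : ∀ i j, i + j < n → ((g i j).neg ↔ n ≤ c * i + j) := by
    intro i
    induction i with
    | zero =>
      intro j hij
      have := (hnode 0 j hij).neg0 rfl
      constructor
      · intro h; exact absurd h this
      · intro h; omega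
    | succ i ih =>
      intro j hij
      rw [(hstep i j (by omega)).neg, ih j (by omega), Nat.mul_succ]
      constructor
      · rintro (h | ⟨a, ha⟩)
        · omega
        · rw [← fo_fin a, hmk _ i a j a.2 rfl (by omega)] at ha
          have := a.2
          omega
      · intro h
        rcases Nat.lt_or_ge (c * i + j) n with h' | h'
        · right
          refine ⟨fo c (n - 1 - (c * i + j)), ?_⟩
          rw [hmk _ i _ j (by omega) rfl (by omega)]
          omega
        · left; exact h'
  have hWval : ∀ i a, a < c → i < n → (g i 0).W (fo c a) = u (c * i + a) := by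
    intro i a ha hi
    have := hci i
    rcases Nat.lt_or_ge (c * i + a) n with h | h
    · have h1 := (hmk _ i a (n - 1 - (c * i + a)) ha rfl (by omega)).2 (by omega)
      have h2 := (hnode i (n - 1 - (c * i + a)) (by omega)).mkW _ h1
      rw [hW i _ (by omega), hhl (n - 1 - (i + (n - 1 - (c * i + a)))) i _ (by omega)] at h2
      rw [h2]
      congr 1
      omega
    · rw [hu _ h]
      rcases Nat.lt_or_ge (c * i) n with h' | h'
      · have h1 := (hmk _ i (n - 1 - c * i) 0 (by omega) rfl (by omega)).2 (by omega)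
        refine (hnode i 0 (by omega)).endmk rfl _ _ h1 ?_
        rw [Fin.lt_def, fo_val (by omega), fo_val ha]
        omega
      · exact (hnode i 0 (by omega)).endneg rfl ((hneg i 0 (by omega)).2 (by omega)) _
  have hdiv : ∀ i a, a < c → (c * i + a) / c = i := by
    intro i a ha
    rw [Nat.mul_add_div hc, Nat.div_eq_of_lt ha, Nat.add_zero]
  refine ⟨fun x y => (g (x / c) (y / c)).B (fo c x) (fo c y), ⟨?_, ?_, ?_⟩⟩
  · intro x y hxy
    obtain ⟨i, a, ha, rfl⟩ : ∃ i a, a < c ∧ x = c * i + a :=
      ⟨x / c, x % c, Nat.mod_lt _ hc, (Nat.div_add_mod x c).symm⟩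
    obtain ⟨j, b, hb, rfl⟩ : ∃ j b, b < c ∧ y = c * j + b :=
      ⟨y / c, y % c, Nat.mod_lt _ hc, (Nat.div_add_mod y c).symm⟩
    have h1 : i + j < n := by
      apply Nat.lt_of_mul_lt_mul_left (a := c)
      rw [Nat.mul_add]
      omega
    have h2 : n < i + j + 2 := by
      apply Nat.lt_of_mul_lt_mul_left (a := c)
      rw [Nat.mul_add, Nat.mul_add]
      omega
    have h3 : i + j + 1 = n := by omega
    have h4 : a + b + 1 = c := by
      rw [← h3, Nat.mul_add, Nat.mul_add] at hxy
      omega
    have h5 := (hbase i j h3).base a b h4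
    rw [hW i j h1, hWval i a ha (by omega)] at h5
    simp only [hdiv i a ha, hdiv j b hb, fo_mul_add]
    exact h5
  · intro x y hxy
    obtain ⟨i, a, ha, rfl⟩ : ∃ i a, a < c ∧ x = c * i + a :=
      ⟨x / c, x % c, Nat.mod_lt _ hc, (Nat.div_add_mod x c).symm⟩
    obtain ⟨j, b, hb, rfl⟩ : ∃ j b, b < c ∧ y = c * j + b :=
      ⟨y / c, y % c, Nat.mod_lt _ hc, (Nat.div_add_mod y c).symm⟩
    have h1 : i + j < n := by
      apply Nat.lt_of_mul_lt_mul_left (a := c)
      rw [Nat.mul_add]
      omega
    have hleft : ∀ (G : ℕ → Fin c → V.Λ), G ((c * j + b + 1) / c) (fo c (c * j + b + 1)) =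
        if b + 1 < c then G j (fo c (b + 1)) else G (j + 1) (fo c 0) := by
      intro G
      split_ifs with h
      · rw [Nat.add_assoc, hdiv j _ h, fo_mul_add]
      · have : c * j + b + 1 = c * (j + 1) + 0 := by
          rw [Nat.mul_succ]; omega
        rw [this, hdiv (j + 1) 0 hc, fo_mul_add]
    have hright : ∀ (G : ℕ → Fin c → V.Λ), G ((c * i + a + 1) / c) (fo c (c * i + a + 1)) =
        if a + 1 < c then G i (fo c (a + 1)) else G (i + 1) (fo c 0) := by
      intro G
      split_ifs with h
      · rw [Nat.add_assoc, hdiv i _ h, fo_mul_add]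
      · have : c * i + a + 1 = c * (i + 1) + 0 := by
          rw [Nat.mul_succ]; omega
        rw [this, hdiv (i + 1) 0 hc, fo_mul_add]
    have hl := hleft (fun j' b' => (g i j').B (fo c a) b')
    have hr := hright (fun i' a' => (g i' j).B a' (fo c b))
    simp only [hdiv i a ha, hdiv j b hb, fo_mul_add] at hl hr ⊢
    rw [hl, hr]
    rcases Nat.lt_or_ge (i + j + 1) n with h | h
    · exact (hstep i j h).step a b ha hb
    · have h3 : i + j + 1 = n := by omega
      have h4 : a + b + 1 < c := by
        rw [← h3, Nat.mul_add, Nat.mul_add] at hxy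
        omega
      rw [if_pos (by omega), if_pos (by omega)]
      exact (hbase i j h3).step a b h4
  · have := hg.acc
    show V.Acc ((g (0 / c) (0 / c)).B (fo c 0) (fo c 0))
    rw [Nat.zero_div]
    exact this

theorem pad_complete [Finite S] (V : LocSys (Option S)) (c : ℕ) [NeZero c] (hc2 : 2 ≤ c) (n : ℕ)
    (u : ℕ → Option S) (hu : ∀ x, n ≤ x → u x = none)
    (h : V.Accepts (c * n) u) : (pad V c).Accepts n u := by
  obtain ⟨f, hf⟩ := h
  have hc : 0 < c := by omega
  have hci : ∀ i, 2 * i ≤ c * i := fun i => Nat.mul_le_mul_right i hc2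
  let g : ℕ → ℕ → PadState S V.Λ c := fun i j =>
    { mark := fun a => c * i + a + j + 1 = n
      neg := n ≤ c * i + j
      hl := u (n - 1 - j)
      W := fun a => u (c * i + a)
      B := fun a b => f (c * i + a) (c * j + b) }
  have hnode : ∀ i j, i + j < n → PadNode i j (g i j) := by
    intro i j hij
    refine ⟨?_, ?_, ?_, ?_⟩
    · rintro rfl h
      have h' : n ≤ c * 0 + j := h
      omega
    · intro a h
      have h' : c * i + a + j + 1 = n := h
      show u (c * i + a) = u (n - 1 - j)
      congr 1
      omega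
    · rintro rfl h a
      have h' : n ≤ c * i + 0 := h
      exact hu _ (by omega)
    · rintro rfl a a' h haa'
      have h' : c * i + a + 0 + 1 = n := h
      rw [Fin.lt_def] at haa'
      exact hu _ (by omega)
  refine ⟨g, ⟨?_, ?_, ?_⟩⟩
  · intro i j hij
    refine ⟨?_, ?_, hnode i j (by omega), ?_, ?_⟩
    · show u (n - 1 - j) = u i
      congr 1
      omega
    · intro a
      show c * i + a + j + 1 = n ↔ _
      have := hci i
      constructor
      · intro h
        refine ⟨by omega, ?_⟩
        rw [Fin.ext_iff, fo_val hc]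
        omega
      · rintro ⟨rfl, rfl⟩
        rw [fo_val hc]
        omega
    · intro a b hab
      show V.Step _ _ (f (c * i + (fo c a : ℕ)) (c * j + (fo c b : ℕ)))
        (f (c * i + (fo c a : ℕ)) (c * j + (fo c (b + 1) : ℕ)))
        (f (c * i + (fo c (a + 1) : ℕ)) (c * j + (fo c b : ℕ)))
      rw [fo_val (by omega : a < c), fo_val (by omega : b < c), fo_val (by omega : b + 1 < c),
        fo_val (by omega : a + 1 < c)]
      refine hf.step _ _ ?_
      rw [← hij, Nat.mul_add, Nat.mul_add]
      omega
    · intro a b hab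
      show V.Base _ _ (u (c * i + (fo c a : ℕ))) (f (c * i + (fo c a : ℕ)) (c * j + (fo c b : ℕ)))
      rw [fo_val (by omega : a < c), fo_val (by omega : b < c)]
      refine hf.base _ _ ?_
      rw [← hij, Nat.mul_add, Nat.mul_add]
      omega
  · intro i j hij
    refine ⟨rfl, rfl, ?_, ?_, ?_, ?_, hnode i j (by omega), ?_⟩
    · intro a ha
      show c * i + (fo c (a + 1) : ℕ) + j + 1 = n ↔ c * i + (fo c a : ℕ) + (j + 1) + 1 = n
      rw [fo_val ha, fo_val (by omega : a < c)]
      omega
    · show c * i + (fo c (c - 1) : ℕ) + (j + 1) + 1 = n ↔ c * (i + 1) + (fo c 0 : ℕ) + j + 1 = n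
      rw [fo_val hc, fo_val (by omega : c - 1 < c), Nat.mul_succ]
      omega
    · rintro rfl h
      have h' : c * 0 + (fo c 0 : ℕ) + j + 1 = n := h
      rw [fo_val hc] at h'
      omega
    · show n ≤ c * (i + 1) + j ↔ (n ≤ c * i + j ∨ ∃ a : Fin c, c * i + a + j + 1 = n)
      rw [Nat.mul_succ]
      constructor
      · intro h
        rcases Nat.lt_or_ge (c * i + j) n with h' | h'
        · right
          refine ⟨⟨n - 1 - (c * i + j), by omega⟩, ?_⟩
          show c * i + (n - 1 - (c * i + j)) + j + 1 = n
          omega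
        · left; exact h'
      · rintro (h | ⟨a, ha⟩)
        · omega
        · have := a.2
          omega
    · intro a b ha hb
      have e1 : (if b + 1 < c then (g i j).B (fo c a) (fo c (b + 1))
          else (g i (j + 1)).B (fo c a) (fo c 0)) = f (c * i + a) (c * j + b + 1) := by
        split_ifs with h
        · show f (c * i + (fo c a : ℕ)) (c * j + (fo c (b + 1) : ℕ)) = _
          rw [fo_val ha, fo_val h]
          rfl
        · show f (c * i + (fo c a : ℕ)) (c * (j + 1) + (fo c 0 : ℕ)) = _
          rw [fo_val ha, fo_val hc, Nat.mul_succ]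
          congr 1
          omega
      have e2 : (if a + 1 < c then (g i j).B (fo c (a + 1)) (fo c b)
          else (g (i + 1) j).B (fo c 0) (fo c b)) = f (c * i + a + 1) (c * j + b) := by
        split_ifs with h
        · show f (c * i + (fo c (a + 1) : ℕ)) (c * j + (fo c b : ℕ)) = _
          rw [fo_val hb, fo_val h]
          rfl
        · show f (c * (i + 1) + (fo c 0 : ℕ)) (c * j + (fo c b : ℕ)) = _
          rw [fo_val hb, fo_val hc, Nat.mul_succ]
          congr 1
          omega
      rw [e1, e2]
      show V.Step _ _ (f (c * i + (fo c a : ℕ)) (c * j + (fo c b : ℕ))) _ _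
      rw [fo_val ha, fo_val hb]
      refine hf.step _ _ ?_
      have h1 : c * (i + j + 2) ≤ c * n := Nat.mul_le_mul_left c (by omega)
      rw [Nat.mul_add, Nat.mul_add] at h1
      omega
  · have := hf.acc
    show V.Acc (f (c * 0 + (fo c 0 : ℕ)) (c * 0 + (fo c 0 : ℕ)))
    rw [fo_val hc]
    exact this

theorem pad_accepts [Finite S] (V : LocSys (Option S)) (c : ℕ) [NeZero c] (hc2 : 2 ≤ c) (n : ℕ)
    (u : ℕ → Option S) (hu : ∀ x, n ≤ x → u x = none) :
    (pad V c).Accepts n u ↔ V.Accepts (c * n) u :=
  ⟨pad_sound V c n u hu, pad_complete V c hc2 n u hu⟩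

end Pool.Agent.Lib.MP_4cfe6b_lc
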