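import Pool.Agent.Lib.MP_4cfe6b_lc.Run

/-!
# Top-down regular labellings are verifiable
-/

namespace Pool.Agent.Lib.MP_4cfe6b_lc

section

variable {Δ : Type} (l r : Δ → Δ) (h : Δ → Δ → Δ)

theorem nextRow_zero (w : List Δ) (d : Δ) (h0 : w[0]? = some d) :
    (nextRow l r h w)[0]? = some (l d) := by
  cases w with
  | nil => simp at h0
  | cons x xs =>
    simp only [List.getElem?_cons_zero, Option.some.injEq] at h0
    subst h0
    simp [nextRow]

theorem nextRow_succ (w : List Δ) (k : ℕ) (d e : Δ) (h0 : w[k]? = some d)
    (h1 : w[k + 1]? = some e) : (nextRow l r h w)[k + 1]? = some (h d e) := by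
  have hk : k + 1 < w.length := by
    by_contra hcon
    rw [List.getElem?_eq_none_iff.2 (by omega)] at h1
    simp at h1
  obtain ⟨x, xs, rfl⟩ := List.exists_cons_of_ne_nil (l := w) (by
    rintro rfl
    simp at h0)
  simp only [List.length_cons] at hk
  have hz : (List.zipWith h (x :: xs) xs)[k]? = some (h d e) := by
    rw [List.getElem?_zipWith]
    rw [List.getElem?_cons_succ] at h1
    rw [h0, h1]
  have hlen : k < (List.zipWith h (x :: xs) xs).length := by
    rw [List.length_zipWith, List.length_cons]
    omega
  simp only [nextRow, List.head?_cons, Option.map_some, Option.toList_some, List.tail_cons,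
    List.cons_append, List.nil_append, List.getElem?_cons_succ]
  rw [List.getElem?_append_left hlen]
  exact hz

theorem nextRow_last (w : List Δ) (k : ℕ) (d : Δ) (h0 : w[k]? = some d) (hk : w.length = k + 1) :
    (nextRow l r h w)[k + 1]? = some (r d) := by
  obtain ⟨x, xs, rfl⟩ := List.exists_cons_of_ne_nil (l := w) (by
    rintro rfl
    simp at h0)
  simp only [List.length_cons] at hk
  have hlen : (List.zipWith h (x :: xs) xs).length = k := by
    rw [List.length_zipWith, List.length_cons]
    omega
  have hlast : (x :: xs).getLast? = some d := by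
    rw [List.getLast?_eq_getElem?, List.length_cons]
    have : xs.length + 1 - 1 = k := by omega
    rw [this]
    exact h0
  simp only [nextRow, List.head?_cons, Option.map_some, Option.toList_some, List.tail_cons,
    List.cons_append, List.nil_append, List.getElem?_cons_succ, hlast]
  rw [List.getElem?_append_right (by omega), hlen]
  simp

end

/-- the label computed from the labels of the parents -/
def own {Δ : Type} (l r : Δ → Δ) (h : Δ → Δ → Δ) (a : Δ) : Option Δ × Option Δ → Δ
  | (none, none) => a
  | (none, some d) => l d
  | (some d, none) => r d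
  | (some d, some e) => h d e

/-- the certificate system of a top-down regular labelling: each node guesses the labels of its
parents -/
def regCert {Δ : Type} [Finite Δ] (l r : Δ → Δ) (h : Δ → Δ → Δ) (a : Δ) : CertSys Δ where
  Λ := Option Δ × Option Δ
  fin := inferInstance
  P := 1
  hP := Nat.one_pos
  Step i j x y z := (i = 0 → x.1 = none) ∧ (j = 0 → x.2 = none) ∧
    y.2 = some (own l r h a x) ∧ z.1 = some (own l r h a x)
  step_sim := by
    rintro i i' j j' x y z hi hj ⟨h1, h2, h3, h4⟩
    exact ⟨fun h0 => h1 (hi.2.2 h0), fun h0 => h2 (hj.2.2 h0), h3, h4⟩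
  lb := own l r h a

theorem exists_verifies_of_regular {Δ : Type} [Finite Δ] (lab : ℕ → ℕ → Δ)
    (hlab : IsTopDownRegular lab) :
    ∃ C : CertSys Δ, C.Verifies 2 (fun i j => lab (i + j) i) := by
  obtain ⟨l, r, h, a, hrow⟩ := hlab
  have h00 : lab 0 0 = a := by
    have := hrow 0 0 le_rfl
    simpa using this.symm
  have hl : ∀ m, lab (m + 1) 0 = l (lab m 0) := by
    intro m
    have h1 := nextRow_zero l r h _ _ (hrow m 0 (Nat.zero_le _))
    rw [← Function.iterate_succ_apply' (nextRow l r h), hrow (m + 1) 0 (Nat.zero_le _)] at h1
    exact Option.some.inj h1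
  have hr : ∀ m, lab (m + 1) (m + 1) = r (lab m m) := by
    intro m
    have h1 := nextRow_last l r h _ _ _ (hrow m m le_rfl) (row_length l r h a m)
    rw [← Function.iterate_succ_apply' (nextRow l r h), hrow (m + 1) (m + 1) le_rfl] at h1
    exact Option.some.inj h1
  have hh : ∀ m k, k + 1 ≤ m → lab (m + 1) (k + 1) = h (lab m k) (lab m (k + 1)) := by
    intro m k hk
    have h1 := nextRow_succ l r h _ _ _ _ (hrow m k (by omega)) (hrow m (k + 1) hk)
    rw [← Function.iterate_succ_apply' (nextRow l r h), hrow (m + 1) (k + 1) (by omega)] at h1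
    exact Option.some.inj h1
  have hown : ∀ i j, own l r h a ((if i = 0 then none else some (lab (i - 1 + j) (i - 1))),
      (if j = 0 then none else some (lab (i + (j - 1)) i))) = lab (i + j) i := by
    intro i j
    rcases i with _ | i
    · rcases j with _ | j
      · exact h00.symm
      · simp only [if_pos, Nat.add_one_ne_zero, if_false, Nat.add_sub_cancel]
        show l (lab (0 + j) 0) = lab (0 + (j + 1)) 0
        rw [Nat.zero_add, Nat.zero_add, hl]
    · rcases j with _ | j
      · simp only [if_pos, Nat.add_one_ne_zero, if_false, Nat.add_sub_cancel]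
        show r (lab (i + 0) i) = lab (i + 1 + 0) (i + 1)
        rw [Nat.add_zero, Nat.add_zero, hr]
      · simp only [Nat.add_one_ne_zero, if_false, Nat.add_sub_cancel]
        show h (lab (i + (j + 1)) i) (lab (i + 1 + j) (i + 1)) = lab (i + 1 + (j + 1)) (i + 1)
        have e1 : i + (j + 1) = i + j + 1 := by omega
        have e2 : i + 1 + j = i + j + 1 := by omega
        have e3 : i + 1 + (j + 1) = i + j + 1 + 1 := by omega
        rw [e1, e2, e3, hh (i + j + 1) i (by omega)]
  refine ⟨regCert l r h a, ⟨?_, ?_⟩⟩
  · refine ⟨fun i j => ((if i = 0 then none else some (lab (i - 1 + j) (i - 1))),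
      (if j = 0 then none else some (lab (i + (j - 1)) i))), ?_, hown⟩
    intro i j
    refine ⟨?_, ?_, ?_, ?_⟩
    · rintro rfl
      rfl
    · rintro rfl
      rfl
    · show (if j + 1 = 0 then none else some (lab (i + (j + 1 - 1)) i)) = _
      rw [hown, if_neg (by omega), Nat.add_sub_cancel]
    · show (if i + 1 = 0 then none else some (lab (i + 1 - 1 + j) (i + 1 - 1))) = _
      rw [hown, if_neg (by omega), Nat.add_sub_cancel]
  · intro N f hf
    have hstep : ∀ i j, i + j + 1 < N → (i = 0 → (f i j).1 = none) ∧ (j = 0 → (f i j).2 = none) ∧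
      (f i (j + 1)).2 = some (own l r h a (f i j)) ∧
      (f (i + 1) j).1 = some (own l r h a (f i j)) := hf
    have key : ∀ m i j, i + j = m → m + 1 < N → own l r h a (f i j) = lab (i + j) i := by
      intro m
      induction m with
      | zero =>
        intro i j hij hm
        have hi : i = 0 := by omega
        have hj : j = 0 := by omega
        subst hi hj
        have h1 := (hstep 0 0 hm).1 rfl
        have h2 := (hstep 0 0 hm).2.1 rfl
        have h3 : f 0 0 = (none, none) := Prod.ext h1 h2
        rw [h3]
        exact h00.symm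
      | succ m ih =>
        intro i j hij hm
        rw [← hown i j]
        congr 1
        have e1 : (f i j).1 = if i = 0 then none else some (lab (i - 1 + j) (i - 1)) := by
          split_ifs with h0
          · exact (hstep i j (by omega)).1 h0
          · obtain ⟨i', rfl⟩ : ∃ i', i = i' + 1 := ⟨i - 1, by omega⟩
            rw [Nat.add_sub_cancel, (hstep i' j (by omega)).2.2.2, ih i' j (by omega) (by omega)]
        have e2 : (f i j).2 = if j = 0 then none else some (lab (i + (j - 1)) i) := by
          split_ifs with h0
          · exact (hstep i j (by omega)).2.1 h0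
          · obtain ⟨j', rfl⟩ : ∃ j', j = j' + 1 := ⟨j - 1, by omega⟩
            rw [Nat.add_sub_cancel, (hstep i j' (by omega)).2.2.1, ih i j' (by omega) (by omega)]
        exact Prod.ext e1 e2
    intro i j hij
    exact key _ i j rfl (by omega)

end Pool.Agent.Lib.MP_4cfe6b_lc
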