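import Pool.Agent.Lib.MP_4cfe6b_lc.Pad

/-!
# Automata on verifiable labellings

A labelling is verifiable (with slack `c`) if there is a system of local constraints such that
every solution on the triangle of size `N` gives the right label at all nodes `(i, j)` with
`c * (i + j + 1) ≤ N`, and some solution exists on the whole quadrant.  The language of a
nondeterministic automaton on a verifiable labelling is the language of a local system.
-/

namespace Pool.Agent.Lib.MP_4cfe6b_lc

/-- a certificate system for labellings by `Δ` -/
structure CertSys (Δ : Type) where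
  /-- the certificate symbols -/
  Λ : Type
  fin : Finite Λ
  /-- the period of the constraints -/
  P : ℕ
  hP : 0 < P
  /-- constraint between a node and its left and right child -/
  Step : ℕ → ℕ → Λ → Λ → Λ → Prop
  step_sim : ∀ i i' j j' x y z, Sim P i i' → Sim P j j' → Step i j x y z → Step i' j' x y z
  /-- the label announced by a certificate symbol -/
  lb : Λ → Δ

/-- `C` verifies the labelling `T` with slack `c` -/
structure CertSys.Verifies {Δ : Type} (C : CertSys Δ) (c : ℕ) (T : ℕ → ℕ → Δ) : Prop where
  complete : ∃ F : ℕ → ℕ → C.Λ, (∀ i j, C.Step i j (F i j) (F i (j + 1)) (F (i + 1) j)) ∧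
    ∀ i j, C.lb (F i j) = T i j
  sound : ∀ (N : ℕ) (f : ℕ → ℕ → C.Λ),
    (∀ i j, i + j + 1 < N → C.Step i j (f i j) (f i (j + 1)) (f (i + 1) j)) →
    ∀ i j, c * (i + j + 1) ≤ N → C.lb (f i j) = T i j

theorem CertSys.Verifies.mono {Δ : Type} {C : CertSys Δ} {c c' : ℕ} {T : ℕ → ℕ → Δ}
    (h : C.Verifies c T) (hc : c ≤ c') : C.Verifies c' T :=
  ⟨h.complete, fun N f hf i j hij => h.sound N f hf i j
    (le_trans (Nat.mul_le_mul_right _ hc) hij)⟩

variable {S : Type}

/-- states of the verification of a run -/
structure RunState (L S Γ : Type) where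
  /-- certificate symbol -/
  cert : L
  /-- letter of the line -/
  lt : Option S
  /-- output of the node in the run, or nothing -/
  r : Option Γ

instance {L S Γ : Type} [Finite L] [Finite S] [Finite Γ] : Finite (RunState L S Γ) := by
  refine Finite.of_injective (β := L × Option S × Option Γ) (fun x => (x.cert, x.lt, x.r)) ?_
  rintro ⟨a1, a2, a3⟩ ⟨b1, b2, b3⟩ h
  simp only [Prod.mk.injEq] at h
  obtain ⟨rfl, rfl, rfl⟩ := h
  rfl

/-- constraint at an inner node -/
structure RunStep (A : NTA S) (C : CertSys A.Δ) (i j : ℕ) (x y z : RunState C.Λ S A.Γ) :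
    Prop where
  cert : C.Step i j x.cert y.cert z.cert
  lt : y.lt = x.lt
  bd : j = 0 → (x.r = none ↔ x.lt = none)
  act : y.r = none ↔ z.r = none
  base : ∀ v, x.r = some v → y.r = none →
    ∃ s, x.lt = some s ∧ v ∈ A.g (C.lb x.cert) none (some (A.inc s))
  step : ∀ v v₁ v₂, x.r = some v → y.r = some v₁ → z.r = some v₂ →
    v ∈ A.g (C.lb x.cert) (some v₁) (some v₂)

/-- the local system verifying a run in the upper part of a larger triangle -/
def runSys [Finite S] (A : NTA S) (C : CertSys A.Δ) : LocSys (Option S) where
  Λ := RunState C.Λ S A.Γ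
  fin := by
    have := C.fin
    have := A.finΓ
    infer_instance
  P := C.P
  hP := C.hP
  Base _ _ s x := x.lt = s ∧ x.r = none
  Step := RunStep A C
  Acc x := ∃ v ∈ A.acc, x.r = some v
  base_sim _ _ _ _ _ _ _ _ h := h
  step_sim := by
    intro i i' j j' x y z hi hj h
    exact ⟨C.step_sim _ _ _ _ _ _ _ hi hj h.cert, h.lt, fun h0 => h.bd (hj.2.2 h0), h.act,
      h.base, h.step⟩

theorem runSys_sound [Finite S] (A : NTA S) (C : CertSys A.Δ) (c : ℕ) (hc : 2 ≤ c)
    (hC : C.Verifies c (fun i j => A.lab (i + j) i)) (w : List S) (hw : w ≠ [])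
    (h : (runSys A C).Accepts (c * w.length) (fun i => w[i]?)) : w ∈ A.language := by
  obtain ⟨f, hf⟩ := h
  have hbase : ∀ i j, i + j + 1 = c * w.length → (f i j).lt = w[i]? ∧ (f i j).r = none := hf.base
  have hstep : ∀ i j, i + j + 1 < c * w.length →
    RunStep A C i j (f i j) (f i (j + 1)) (f (i + 1) j) := hf.step
  have hn : 0 < w.length := List.length_pos_iff.2 hw
  have hcn : 2 * w.length ≤ c * w.length := Nat.mul_le_mul_right _ hc
  have hlt : ∀ d i j, i + j + 1 + d = c * w.length → (f i j).lt = w[i]? := by
    intro d
    induction d with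
    | zero => intro i j h; exact (hbase i j h).1
    | succ d ih =>
      intro i j h
      rw [← (hstep i j (by omega)).lt]
      exact ih i (j + 1) (by omega)
  have hr : ∀ j i, i + j < c * w.length → ((f i j).r = none ↔ w.length ≤ i + j) := by
    intro j
    induction j with
    | zero =>
      intro i h
      rcases Nat.lt_or_ge (i + 0 + 1) (c * w.length) with h' | h'
      · rw [(hstep i 0 h').bd rfl, hlt (c * w.length - (i + 0 + 1)) i 0 (by omega),
          List.getElem?_eq_none_iff]
        rfl
      · constructor
        · intro _; omega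
        · intro _; exact (hbase i 0 (by omega)).2
    | succ j ih =>
      intro i h
      rw [(hstep i j (by omega)).act, ih (i + 1) (by omega)]
      omega
  have hlab : ∀ i j, i + j < w.length → C.lb (f i j).cert = A.lab (i + j) i := by
    intro i j hij
    refine hC.sound (c * w.length) (fun i j => (f i j).cert) ?_ i j
      (Nat.mul_le_mul_left c hij)
    intro i j hij
    exact (hstep i j hij).cert
  have hsome : ∀ i j, i + j < w.length → ∃ v, (f i j).r = some v := by
    intro i j hij
    rw [← Option.ne_none_iff_exists']
    intro h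
    rw [hr j i (by omega)] at h
    omega
  let v₀ : A.Γ := A.inc (w[0]'hn)
  have hsome' : ∀ i j, i + j < w.length → (f i j).r = some ((f i j).r.getD v₀) := by
    intro i j hij
    obtain ⟨v, hv⟩ := hsome i j hij
    rw [hv]
    rfl
  refine ⟨hw, fun m k => (f k (m - k)).r.getD v₀, ⟨?_, ?_⟩, ?_⟩
  · intro k hk
    have h1 := hsome' k (w.length - 1 - k) (by omega)
    have h2 : (f k (w.length - 1 - k + 1)).r = none := by
      rw [hr _ _ (by omega)]
      omega
    obtain ⟨s, hs, hv⟩ := (hstep k (w.length - 1 - k) (by omega)).base _ h1 h2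
    rw [hlt (c * w.length - (k + (w.length - 1 - k) + 1)) k _ (by omega),
      List.getElem?_eq_getElem hk] at hs
    injection hs with hs
    rw [hlab k _ (by omega), ← hs] at hv
    have h3 : k + (w.length - 1 - k) = w.length - 1 := by omega
    rw [h3] at hv
    exact hv
  · intro m k hm hk
    have h1 := hsome' k (m - k) (by omega)
    have h2 := hsome' k (m - k + 1) (by omega)
    have h3 := hsome' (k + 1) (m - k) (by omega)
    have h4 := (hstep k (m - k) (by omega)).step _ _ _ h1 h2 h3
    rw [hlab k _ (by omega)] at h4
    have h5 : k + (m - k) = m := by omega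
    have e1 : m + 1 - k = (m - k) + 1 := by omega
    have e2 : m + 1 - (k + 1) = m - k := by omega
    rw [h5] at h4
    show _ ∈ A.g (A.lab m k) (some ((f k (m + 1 - k)).r.getD v₀))
      (some ((f (k + 1) (m + 1 - (k + 1))).r.getD v₀))
    rw [e1, e2]
    exact h4
  · obtain ⟨v, hv, hv'⟩ := hf.acc
    show (f 0 (0 - 0)).r.getD v₀ ∈ A.acc
    have : (f 0 (0 - 0)).r = some v := hv'
    rw [this]
    exact hv

theorem runSys_complete [Finite S] (A : NTA S) (C : CertSys A.Δ) (c : ℕ) (hc : 2 ≤ c)
    (hC : C.Verifies c (fun i j => A.lab (i + j) i)) (w : List S) (h : w ∈ A.language) :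
    (runSys A C).Accepts (c * w.length) (fun i => w[i]?) := by
  obtain ⟨hw, ρ, ⟨hb, hs⟩, hacc⟩ := h
  obtain ⟨F, hF, hFl⟩ := hC.complete
  have hn : 0 < w.length := List.length_pos_iff.2 hw
  have hcn : 2 * w.length ≤ c * w.length := Nat.mul_le_mul_right _ hc
  refine ⟨fun i j => ⟨F i j, w[i]?, if i + j < w.length then some (ρ (i + j) i) else none⟩,
    ⟨?_, ?_, ?_⟩⟩
  · intro i j hij
    refine ⟨rfl, ?_⟩
    show (if i + j < w.length then some (ρ (i + j) i) else none) = none
    rw [if_neg (by omega)]
  · intro i j hij
    refine ⟨hF i j, rfl, ?_, ?_, ?_, ?_⟩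
    · rintro rfl
      show (if i + 0 < w.length then some (ρ (i + 0) i) else none) = none ↔ w[i]? = none
      rw [List.getElem?_eq_none_iff]
      split_ifs with h
      · constructor
        · intro h'; exact absurd h' (by simp)
        · intro h'; omega
      · constructor
        · intro _; omega
        · intro _; rfl
    · show (if i + (j + 1) < w.length then some (ρ (i + (j + 1)) i) else none) = none ↔
        (if i + 1 + j < w.length then some (ρ (i + 1 + j) (i + 1)) else none) = none
      have e : i + (j + 1) = i + 1 + j := by omega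
      rw [e]
      split_ifs <;> simp
    · intro v hv hy
      change (if i + j < w.length then some (ρ (i + j) i) else none) = some v at hv
      change (if i + (j + 1) < w.length then some (ρ (i + (j + 1)) i) else none) = none at hy
      split_ifs at hv with h1
      split_ifs at hy with h2
      injection hv with hv
      have hi : i < w.length := by omega
      refine ⟨w[i], List.getElem?_eq_getElem hi, ?_⟩
      have h3 := hb i hi
      have h4 : w.length - 1 = i + j := by omega
      rw [h4] at h3
      show v ∈ A.g (C.lb (F i j)) _ _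
      rw [hFl i j, ← hv]
      exact h3
    · intro v v₁ v₂ hv hy hz
      change (if i + j < w.length then some (ρ (i + j) i) else none) = some v at hv
      change (if i + (j + 1) < w.length then some (ρ (i + (j + 1)) i) else none) = some v₁ at hy
      change (if i + 1 + j < w.length then some (ρ (i + 1 + j) (i + 1)) else none) = some v₂ at hz
      have e1 : i + (j + 1) = i + j + 1 := by omega
      have e2 : i + 1 + j = i + j + 1 := by omega
      rw [e1] at hy
      rw [e2] at hz
      split_ifs at hv with h1
      split_ifs at hy with h2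
      rw [if_pos h2] at hz
      injection hv with hv
      injection hy with hy
      injection hz with hz
      show v ∈ A.g (C.lb (F i j)) _ _
      rw [hFl i j, ← hv, ← hy, ← hz]
      exact hs (i + j) i h2 (by omega)
  · refine ⟨ρ 0 0, hacc, ?_⟩
    show (if 0 + 0 < w.length then some (ρ (0 + 0) 0) else none) = _
    rw [if_pos (by omega)]

/-- The language of a nondeterministic automaton on a verifiable labelling is the language of a
local system. -/
theorem exists_locSys [Finite S] (A : NTA S) (C : CertSys A.Δ) (c : ℕ)
    (hC : C.Verifies c (fun i j => A.lab (i + j) i)) :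
    ∃ R : LocSys (Option S), R.language = A.language := by
  have hC' := hC.mono (Nat.le_max_left c 2)
  have hc : 2 ≤ max c 2 := Nat.le_max_right c 2
  have : NeZero (max c 2) := ⟨by omega⟩
  refine ⟨pad (runSys A C) (max c 2), ?_⟩
  ext w
  have hpad := pad_accepts (runSys A C) (max c 2) hc w.length (fun i => w[i]?)
    (fun x hx => List.getElem?_eq_none_iff.2 hx)
  constructor
  · rintro ⟨hw, h⟩
    rw [hpad] at h
    exact runSys_sound A C _ hc hC' w hw h
  · intro h
    refine ⟨h.1, ?_⟩
    rw [hpad]
    exact runSys_complete A C _ hc hC' w h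

end Pool.Agent.Lib.MP_4cfe6b_lc
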