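import Pool.Agent.Lib.MP_4cfe6b_lc.Events

/-!
# Types on the hierarchical grid

The vertical line `i` of level `m` carries in row `j` the label `T (i / p^(m+1)) (j / q^(m+1))`, and
the horizontal line `j` of level `b` carries in column `i` the label
`T (i / p^(b+1)) (j / q^(b+1))`.  An auxiliary grid with parameters `(p, p)` verifies the labels
`T (i / p^(m+1)) 0`.
-/

namespace Pool.Agent.Lib.MP_4cfe6b_lc

variable {Δ : Type}

theorem phi_le {P X p i i' : ℕ} (hp : 2 ≤ p) (hX : 1 ≤ X) (hi : i' ≤ i + P) :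
    i' + (2 * (X / p) - 1) * (p * P) ≤ i + (2 * X - 1) * P := by
  rcases Nat.eq_zero_or_pos (X / p) with h | h
  · rw [h]
    have : 1 * P ≤ (2 * X - 1) * P := Nat.mul_le_mul_right _ (by omega)
    simp only [Nat.mul_zero, Nat.zero_sub, Nat.zero_mul, Nat.add_zero]
    omega
  · have h1 : p * (X / p) ≤ X := Nat.mul_div_le X p
    have h2 : (2 * (X / p) - 1) * p + 1 ≤ 2 * X - 1 := by
      rw [Nat.sub_mul, Nat.mul_assoc, Nat.mul_comm (X / p) p]
      have h3 : p * 1 ≤ p * (X / p) := Nat.mul_le_mul_left _ h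
      omega
    have h4 : ((2 * (X / p) - 1) * p + 1) * P ≤ (2 * X - 1) * P := Nat.mul_le_mul_right _ h2
    rw [Nat.add_mul, Nat.one_mul, Nat.mul_assoc] at h4
    omega

theorem not_dvd_of_div_eq {P i₁ i₂ : ℕ} (h : i₁ ≤ i₂) (hd : i₁ / P = (i₂ + 1) / P) :
    ¬ P ∣ i₂ + 1 := by
  intro hdvd
  rw [Nat.succ_div_of_dvd hdvd] at hd
  have := Nat.div_le_div_right (c := P) h
  omega

section

variable {p q N : ℕ} {e : ℕ → ℕ → Ev} {V H : ℕ → ℕ → Ctr}

/-- The type of a horizontal line is constant between vertical lines of higher level. -/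
theorem sig_const (hp : 2 ≤ p) (hq : 2 ≤ q) (hg : EvGrid p q N e V H) {σ : ℕ → ℕ → Δ}
    (hσ : ∀ i j, 1 ≤ j → i + j + 1 < N → e (i + 1) j ≠ Ev.G1 → e (i + 1) j ≠ Ev.G2 →
      σ (i + 1) j = σ i j) {j : ℕ} (hj : 1 ≤ j) (i₁ i₂ : ℕ) (h12 : i₁ ≤ i₂)
    (hdiv : i₁ / p ^ (val q j + 1) = i₂ / p ^ (val q j + 1)) (hN : 2 * (i₂ + j) < N + 1) :
    σ i₂ j = σ i₁ j := by
  induction i₂, h12 using Nat.le_induction with
  | base => rfl
  | succ i₂ h12 ih =>
    have h1 : i₁ / p ^ (val q j + 1) ≤ i₂ / p ^ (val q j + 1) := Nat.div_le_div_right h12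
    have h2 : i₂ / p ^ (val q j + 1) ≤ (i₂ + 1) / p ^ (val q j + 1) :=
      Nat.div_le_div_right (Nat.le_succ i₂)
    rw [← ih (by omega) (by omega)]
    have hnd := not_dvd_of_div_eq h12 hdiv
    rw [pow_dvd_iff hp (by omega)] at hnd
    have he := events hp hq hg (i := i₂ + 1) (j := j) (by omega) hj (by omega)
    refine hσ i₂ j hj (by omega) ?_ ?_
    · rw [he]
      unfold tev cmpEv
      rw [if_neg (by omega), if_neg (by omega)]
      split_ifs <;> simp
    · rw [he]
      unfold tev cmpEv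
      rw [if_neg (by omega), if_neg (by omega)]
      split_ifs <;> simp

theorem Ev.flip_ne_G1 {e : Ev} (h : e.flip ≠ Ev.G1) : e ≠ Ev.L1 := by
  rintro rfl
  exact h rfl

theorem Ev.flip_ne_G2 {e : Ev} (h : e.flip ≠ Ev.G2) : e ≠ Ev.L2 := by
  rintro rfl
  exact h rfl

/-- The type of a vertical line is constant between horizontal lines of higher level. -/
theorem tau_const (hp : 2 ≤ p) (hq : 2 ≤ q) (hg : EvGrid p q N e V H) {τ : ℕ → ℕ → Δ}
    (hτ : ∀ i j, 1 ≤ i → i + j + 1 < N → e i (j + 1) ≠ Ev.L1 → e i (j + 1) ≠ Ev.L2 →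
      τ i (j + 1) = τ i j) {i : ℕ} (hi : 1 ≤ i) (j₁ j₂ : ℕ) (h12 : j₁ ≤ j₂)
    (hdiv : j₁ / q ^ (val p i + 1) = j₂ / q ^ (val p i + 1)) (hN : 2 * (i + j₂) < N + 1) :
    τ i j₂ = τ i j₁ :=
  sig_const (σ := fun i j => τ j i) hq hp hg.transpose
    (fun i j hj hij h1 h2 => hτ j i hj (by omega) (Ev.flip_ne_G1 h1) (Ev.flip_ne_G2 h2))
    hi j₁ j₂ h12 hdiv (by omega)

/-- the column of level `b` in the block of column `i` -/
def star (p b i : ℕ) : ℕ := p ^ (b + 1) * (i / p ^ (b + 1)) + p ^ b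

theorem star_pos {p : ℕ} (hp : 2 ≤ p) (b i : ℕ) : 1 ≤ star p b i := by
  have : 0 < p ^ b := Nat.pow_pos (by omega)
  unfold star
  omega

theorem pow_lt_pow_succ' {p : ℕ} (hp : 2 ≤ p) (b : ℕ) : p ^ b < p ^ (b + 1) :=
  Nat.pow_lt_pow_right (by omega) (Nat.lt_succ_self b)

theorem star_div {p : ℕ} (hp : 2 ≤ p) (b i : ℕ) :
    star p b i / p ^ (b + 1) = i / p ^ (b + 1) := by
  unfold star
  rw [Nat.mul_add_div (Nat.pow_pos (by omega)), Nat.div_eq_of_lt (pow_lt_pow_succ' hp b),
    Nat.add_zero]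

theorem star_le {p : ℕ} (b i : ℕ) : star p b i ≤ i + p ^ b := by
  unfold star
  have := Nat.mul_div_le i (p ^ (b + 1))
  omega

theorem val_star {p : ℕ} (hp : 2 ≤ p) (b i : ℕ) : val p (star p b i) = b := by
  apply val_eq hp (star_pos hp b i)
  · unfold star
    refine dvd_add (dvd_mul_of_dvd_left (pow_dvd_pow p (Nat.le_succ b)) _) dvd_rfl
  · unfold star
    rw [Nat.dvd_add_right (dvd_mul_right _ _)]
    intro h
    have h1 := Nat.le_of_dvd (Nat.pow_pos (by omega)) h
    have h2 := pow_lt_pow_succ' hp b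
    omega

theorem val_pow {p : ℕ} (hp : 2 ≤ p) (b : ℕ) : val p (p ^ b) = b := by
  apply val_eq hp (Nat.pow_pos (by omega)) dvd_rfl
  intro h
  have h1 := Nat.le_of_dvd (Nat.pow_pos (by omega)) h
  have h2 := pow_lt_pow_succ' hp b
  omega

theorem val_mul_pow {q : ℕ} (hq : 2 ≤ q) {Y m : ℕ} (hY : ¬ q ∣ Y) :
    val q (Y * q ^ m) = m := by
  have hpos : 0 < q ^ m := Nat.pow_pos (by omega)
  have hY0 : 0 < Y := by
    rcases Nat.eq_zero_or_pos Y with rfl | h
    · exact absurd (dvd_zero q) hY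
    · exact h
  apply val_eq hq (Nat.mul_pos hY0 hpos) (dvd_mul_left _ _)
  rw [pow_succ, mul_comm (q ^ m) q]
  intro h
  exact hY (Nat.dvd_of_mul_dvd_mul_right hpos h)

theorem tev_E {i j : ℕ} (h : val p i = val q j) : tev p q i j = Ev.E := by
  unfold tev cmpEv
  rw [if_neg (by omega), if_neg (by omega), if_pos h]

theorem tev_L1 {i j : ℕ} (h : val p i + 1 = val q j) : tev p q i j = Ev.L1 := by
  unfold tev cmpEv
  rw [if_neg (by omega), if_neg (by omega), if_neg (by omega), if_pos h]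

end

/-- Constraints of the auxiliary grid. -/
structure AuxGrid (p N : ℕ) (M : Δ → ℕ → ℕ → Δ) (δ₀ : Δ) (e : ℕ → ℕ → Ev) (V H : ℕ → ℕ → Ctr)
    (τ σ : ℕ → ℕ → Δ) : Prop where
  grid : EvGrid p p N e V H
  tau : ∀ i j, 1 ≤ i → i + j + 1 < N → τ i (j + 1) = τ i j
  sig0 : ∀ j, 1 ≤ j → j + 1 < N → σ 0 j = δ₀
  sig : ∀ i j, 1 ≤ j → i + j + 1 < N → e (i + 1) j ≠ Ev.G1 → e (i + 1) j ≠ Ev.G2 →
    σ (i + 1) j = σ i j
  evE : ∀ i j, 1 ≤ i → 1 ≤ j → i + j + 1 < N → e i j = Ev.E → τ i j = σ i j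
  evL : ∀ i j, 1 ≤ i → 1 ≤ j → i + j + 1 < N → e i j = Ev.L1 → τ i j = M (σ i j) (H i j).t 0

/-- Constraints of the main grid. -/
structure MainGrid (p q N : ℕ) (M : Δ → ℕ → ℕ → Δ) (e : ℕ → ℕ → Ev) (V H : ℕ → ℕ → Ctr)
    (τ σ : ℕ → ℕ → Δ) : Prop where
  grid : EvGrid p q N e V H
  tau : ∀ i j, 1 ≤ i → i + j + 1 < N → e i (j + 1) ≠ Ev.L1 → e i (j + 1) ≠ Ev.L2 →
    τ i (j + 1) = τ i j
  sig : ∀ i j, 1 ≤ j → i + j + 1 < N → e (i + 1) j ≠ Ev.G1 → e (i + 1) j ≠ Ev.G2 →
    σ (i + 1) j = σ i j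
  evE : ∀ i j, 1 ≤ i → 1 ≤ j → i + j + 1 < N → e i j = Ev.E → τ i j = σ i j
  evL : ∀ i j, 1 ≤ i → 1 ≤ j → i + j + 1 < N → e i j = Ev.L1 →
    τ i j = M (σ i j) (H i j).t (V i j).t'
  evL' : ∀ i j, 1 ≤ i → i + j + 1 < N → e i (j + 1) = Ev.L1 → (V i (j + 1)).t' = 1 →
    τ i j = M (σ i (j + 1)) (H i (j + 1)).t 0

section

variable {p q N : ℕ} {M : Δ → ℕ → ℕ → Δ} {δ₀ : Δ} {e : ℕ → ℕ → Ev} {V H : ℕ → ℕ → Ctr}
  {τ σ T : ℕ → ℕ → Δ}

theorem aux_const (hg : AuxGrid p N M δ₀ e V H τ σ) {i : ℕ} (hi : 1 ≤ i) (j : ℕ)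
    (h : i + j < N) : τ i j = τ i 0 := by
  induction j with
  | zero => rfl
  | succ j ih => rw [hg.tau i j hi (by omega), ih (by omega)]

theorem aux_tau (hp : 2 ≤ p) (hg : AuxGrid p N M δ₀ e V H τ σ) (hT0 : T 0 0 = δ₀)
    (hT : ∀ i j, T i j = M (T (i / p) (j / q)) (i % p) (j % q)) (X : ℕ) :
    ∀ i m, 1 ≤ i → val p i = m → i / p ^ (m + 1) = X →
      4 * (i + (2 * X - 1) * p ^ (m + 1)) < N → τ i 0 = T X 0 := by
  induction X using Nat.strong_induction_on with
  | _ X IH =>
    intro i m hi hm hX hN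
    have hpos : 0 < p ^ m := Nat.pow_pos (by omega)
    rcases Nat.eq_zero_or_pos X with rfl | hX1
    · have hle : p ^ m ≤ i := Nat.le_of_dvd hi ((pow_dvd_iff hp hi).2 (by omega))
      simp only [Nat.mul_zero, Nat.zero_sub, Nat.zero_mul, Nat.add_zero] at hN
      have hvj : val p (p ^ m) = m := val_pow hp m
      have he := events hp hp hg.grid hi hpos (by omega : 2 * (i + p ^ m) < N + 1)
      rw [tev_E (by rw [hm, hvj])] at he
      have h1 := hg.evE i (p ^ m) hi hpos (by omega) he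
      have h2 := sig_const hp hp hg.grid hg.sig hpos 0 i (Nat.zero_le _)
        (by rw [hvj, hX, Nat.zero_div]) (by omega)
      rw [aux_const hg hi _ (by omega)] at h1
      rw [h1, h2, hg.sig0 _ hpos (by omega), hT0]
    · -- the horizontal line `p ^ (m + 1)`
      have hN1 : 1 * p ^ (m + 1) ≤ (2 * X - 1) * p ^ (m + 1) := Nat.mul_le_mul_right _ (by omega)
      have hpos1 : 0 < p ^ (m + 1) := Nat.pow_pos (by omega)
      have hvj : val p (p ^ (m + 1)) = m + 1 := val_pow hp (m + 1)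
      have he := events hp hp hg.grid hi hpos1 (by omega : 2 * (i + p ^ (m + 1)) < N + 1)
      rw [tev_L1 (by rw [hm, hvj])] at he
      have h1 := hg.evL i (p ^ (m + 1)) hi hpos1 (by omega) he
      rw [aux_const hg hi _ (by omega),
        counters' hp hp hg.grid hpos1 i (by omega)] at h1
      have hdig : (tctr p p (p ^ (m + 1)) i).t = X % p := by
        show i / p ^ (val p (p ^ (m + 1))) % p = _
        rw [hvj, hX]
      rw [hdig] at h1
      -- the column of level `m + 1`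
      have hs1 := star_le (p := p) (m + 1) i
      have hs2 := star_div hp (m + 1) i
      have hs3 := val_star hp (m + 1) i
      have hs4 := star_pos hp (m + 1) i
      have hXp : i / p ^ (m + 1 + 1) = X / p := by
        rw [← hX, Nat.div_div_eq_div_mul, ← pow_succ]
      have he' := events hp hp hg.grid hs4 hpos1
        (by omega : 2 * (star p (m + 1) i + p ^ (m + 1)) < N + 1)
      rw [tev_E (by rw [hs3, hvj])] at he'
      have h3 := hg.evE _ _ hs4 hpos1 (by omega) he'
      rw [aux_const hg hs4 _ (by omega)] at h3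
      have h4 : σ i (p ^ (m + 1)) = σ (star p (m + 1) i) (p ^ (m + 1)) := by
        rcases Nat.le_total i (star p (m + 1) i) with hle | hle
        · exact (sig_const hp hp hg.grid hg.sig hpos1 i (star p (m + 1) i) hle
            (by rw [hvj, hs2]) (by omega)).symm
        · exact sig_const hp hp hg.grid hg.sig hpos1 (star p (m + 1) i) i hle
            (by rw [hvj, hs2]) (by omega)
      have h5 := IH (X / p) (Nat.div_lt_self hX1 (by omega)) (star p (m + 1) i) (m + 1) hs4 hs3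
        (by rw [hs2, hXp]) (by
          have h6 := phi_le (P := p ^ (m + 1)) hp hX1 hs1
          rw [← pow_succ' p (m + 1)] at h6
          omega)
      rw [h1, h4, ← h3, h5, hT X 0, Nat.zero_div, Nat.zero_mod]

theorem aux_tau' (hp : 2 ≤ p) (hg : AuxGrid p N M δ₀ e V H τ σ) (hT0 : T 0 0 = δ₀)
    (hT : ∀ i j, T i j = M (T (i / p) (j / q)) (i % p) (j % q)) (i : ℕ) (hi : 1 ≤ i)
    (hN : 12 * i < N) : τ i 0 = T (i / p ^ (val p i + 1)) 0 := by
  refine aux_tau hp hg hT0 hT _ i _ hi rfl rfl ?_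
  have h1 : (2 * (i / p ^ (val p i + 1)) - 1) * p ^ (val p i + 1) ≤
      2 * (i / p ^ (val p i + 1)) * p ^ (val p i + 1) := Nat.mul_le_mul_right _ (by omega)
  have h2 : i / p ^ (val p i + 1) * p ^ (val p i + 1) ≤ i := Nat.div_mul_le_self _ _
  rw [Nat.mul_assoc] at h1
  omega

theorem main_tau (hp : 2 ≤ p) (hpq : p ≤ q) (hg : MainGrid p q N M e V H τ σ)
    (hT : ∀ i j, T i j = M (T (i / p) (j / q)) (i % p) (j % q)) (R : ℕ) (hR : 6 * R < N)
    (h0 : ∀ i, 1 ≤ i → i ≤ R → τ i 0 = T (i / p ^ (val p i + 1)) 0) (Y : ℕ) :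
    ∀ i j m, 1 ≤ i → val p i = m → j / q ^ (m + 1) = Y → i + (2 * Y - 1) * q ^ (m + 1) ≤ R →
      2 * (i + j) < N → τ i j = T (i / p ^ (m + 1)) Y := by
  have hq : 2 ≤ q := by omega
  induction Y using Nat.strong_induction_on with
  | _ Y IH =>
    intro i j m hi hm hY hPhi hN
    rcases Nat.eq_zero_or_pos Y with rfl | hY1
    · rw [tau_const hp hq hg.grid hg.tau hi 0 j (Nat.zero_le _)
        (by rw [hm, hY, Nat.zero_div]) (by omega), h0 i hi (by omega), hm]
    · have hpos : 0 < q ^ (m + 1) := Nat.pow_pos (by omega)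
      have hpw : p ^ (m + 1) ≤ q ^ (m + 1) := Nat.pow_le_pow_left hpq _
      have hB : (Y + 2) * q ^ (m + 1) ≤ 3 * ((2 * Y - 1) * q ^ (m + 1)) := by
        rw [← Nat.mul_assoc]
        exact Nat.mul_le_mul_right _ (by omega)
      rw [Nat.add_mul] at hB
      -- the value of `σ` on a horizontal line `y` of level `m + 1`
      have key : ∀ y, 1 ≤ y → val q y = m + 1 → y / q ^ (m + 1 + 1) = Y / q →
          y ≤ Y * q ^ (m + 1) + q ^ (m + 1) → σ i y = T (i / p ^ (m + 1) / p) (Y / q) := by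
        intro y hy1 hvy hyd hyle
        have hs1 := star_le (p := p) (m + 1) i
        have hs2 := star_div hp (m + 1) i
        have hs3 := val_star hp (m + 1) i
        have hs4 := star_pos hp (m + 1) i
        have he' := events hp hq hg.grid hs4 hy1 (by omega : 2 * (star p (m + 1) i + y) < N + 1)
        rw [tev_E (by rw [hs3, hvy])] at he'
        have h3 := hg.evE _ _ hs4 hy1 (by omega) he'
        have h4 : σ i y = σ (star p (m + 1) i) y := by
          rcases Nat.le_total i (star p (m + 1) i) with hle | hle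
          · exact (sig_const hp hq hg.grid hg.sig hy1 i (star p (m + 1) i) hle
              (by rw [hvy, hs2]) (by omega)).symm
          · exact sig_const hp hq hg.grid hg.sig hy1 (star p (m + 1) i) i hle
              (by rw [hvy, hs2]) (by omega)
        have h5 := IH (Y / q) (Nat.div_lt_self hY1 (by omega)) (star p (m + 1) i) y (m + 1) hs4
          hs3 hyd (by
            have h6 := phi_le (P := q ^ (m + 1)) hq hY1 (le_trans hs1 (Nat.add_le_add_left hpw i))
            rw [← pow_succ' q (m + 1)] at h6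
            omega) (by omega)
        rw [h4, ← h3, h5, hs2, Nat.div_div_eq_div_mul, ← pow_succ]
      have hjle : q ^ (m + 1) * Y ≤ j := by
        rw [← hY]
        exact Nat.mul_div_le _ _
      rw [Nat.mul_comm] at hjle
      have hjlt : j < q ^ (m + 1) * (Y + 1) := by
        rw [← hY]
        exact Nat.lt_mul_div_succ j hpos
      rw [Nat.mul_comm, Nat.succ_mul] at hjlt
      by_cases hYq : q ∣ Y
      · -- the next horizontal line has level `m + 1`
        have hnd : ¬ q ∣ Y + 1 := by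
          rw [Nat.dvd_add_right hYq]
          intro h
          have := Nat.le_of_dvd Nat.one_pos h
          omega
        have hvy : val q ((Y + 1) * q ^ (m + 1)) = m + 1 := val_mul_pow hq hnd
        obtain ⟨y, hy⟩ : ∃ y, (Y + 1) * q ^ (m + 1) = y + 1 :=
          ⟨(Y + 1) * q ^ (m + 1) - 1, by
            have : 0 < (Y + 1) * q ^ (m + 1) := Nat.mul_pos (by omega) hpos
            omega⟩
        have hy2 : y + 1 = Y * q ^ (m + 1) + q ^ (m + 1) := by rw [← hy, Nat.succ_mul]
        have hyd : y / q ^ (m + 1) = Y := by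
          rw [Nat.div_eq_iff hpos]
          omega
        have hyd' : (y + 1) / q ^ (m + 1 + 1) = Y / q := by
          rw [← hy, pow_succ q (m + 1), ← Nat.div_div_eq_div_mul, Nat.mul_div_cancel _ hpos]
          exact Nat.succ_div_of_not_dvd hnd
        rw [hy] at hvy
        have h1 : τ i y = τ i j := tau_const hp hq hg.grid hg.tau hi j y (by omega)
          (by rw [hm, hY, hyd]) (by omega)
        have he := events hp hq hg.grid hi (by omega : 1 ≤ y + 1) (by omega)
        rw [tev_L1 (by rw [hm, hvy])] at he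
        have hV := counters hp hq hg.grid hi (y + 1) (by omega)
        have ht' : (V i (y + 1)).t' = 1 := by
          rw [hV]
          show (y + 1) / q ^ (val p i + 1) % q = 1
          rw [hm, ← hy, Nat.mul_div_cancel _ hpos]
          rw [Nat.add_mod, Nat.mod_eq_zero_of_dvd hYq, Nat.zero_add, Nat.mod_mod]
          exact Nat.mod_eq_of_lt (by omega)
        have h2 := hg.evL' i y hi (by omega) he ht'
        rw [counters' hp hq hg.grid (by omega) i (by omega)] at h2
        have ht : (tctr q p (y + 1) i).t = i / p ^ (m + 1) % p := by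
          show i / p ^ (val q (y + 1)) % p = _
          rw [hvy]
        rw [ht, key (y + 1) (by omega) hvy hyd' (by omega)] at h2
        rw [← h1, h2, hT (i / p ^ (m + 1)) Y, Nat.mod_eq_zero_of_dvd hYq]
      · have hvy : val q (Y * q ^ (m + 1)) = m + 1 := val_mul_pow hq hYq
        have hy1 : 1 ≤ Y * q ^ (m + 1) := Nat.mul_pos hY1 hpos
        have hyd : Y * q ^ (m + 1) / q ^ (m + 1) = Y := Nat.mul_div_cancel _ hpos
        have hyd' : Y * q ^ (m + 1) / q ^ (m + 1 + 1) = Y / q := by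
          rw [pow_succ q (m + 1), ← Nat.div_div_eq_div_mul, hyd]
        have h1 : τ i j = τ i (Y * q ^ (m + 1)) :=
          tau_const hp hq hg.grid hg.tau hi _ j hjle (by rw [hm, hY, hyd]) (by omega)
        have he := events hp hq hg.grid hi hy1 (by omega)
        rw [tev_L1 (by rw [hm, hvy])] at he
        have h2 := hg.evL i _ hi hy1 (by omega) he
        rw [counters' hp hq hg.grid hy1 i (by omega), counters hp hq hg.grid hi _ (by omega)] at h2
        have ht : (tctr q p (Y * q ^ (m + 1)) i).t = i / p ^ (m + 1) % p := by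
          show i / p ^ (val q (Y * q ^ (m + 1))) % p = _
          rw [hvy]
        have ht' : (tctr p q i (Y * q ^ (m + 1))).t' = Y % q := by
          show Y * q ^ (m + 1) / q ^ (val p i + 1) % q = _
          rw [hm, hyd]
        rw [ht, ht', key _ hy1 hvy hyd' (by omega)] at h2
        rw [h1, h2, hT (i / p ^ (m + 1)) Y]

end

end Pool.Agent.Lib.MP_4cfe6b_lc
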